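import Pool.Agent.H.MP_6a1d6a_ag.Defs

/-!
MP_6a1d6a_ag, cusp closing: definitions.

Complex hyperbolic space of dimension `n + 1` in the Siegel domain model, cusps, and toroidal
compactifications of complex hyperbolic manifolds.
-/

set_option autoImplicit false

open Set Filter Topology Metric
open scoped ContDiff Manifold

namespace Pool.Agent.Nef6.CC

/-- The space `ℂ × ℂⁿ`; its points are written `(τ, w)` or `(z, w)`. -/
abbrev E (n : ℕ) : Type := ℂ × EuclideanSpace ℂ (Fin n)

/-- The height `Im τ - |w|²`. -/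
noncomputable def ht {n : ℕ} (x : E n) : ℝ := x.1.im - ‖x.2‖ ^ 2

/-- The Siegel domain `Im τ > |w|²`, biholomorphic to the unit ball of `ℂ^(n+1)`: the complex hyperbolic space of
dimension `n + 1`. -/
def Sg (n : ℕ) : Set (E n) := {x | 0 < ht x}

/-- The complex hyperbolic metric (Bergman metric) of the Siegel domain, normalised to holomorphic sectional
curvature `-1`: the square of the length of the tangent vector `v` at the point `x`. -/
noncomputable def hyp {n : ℕ} (x v : E n) : ℝ :=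
  ‖v.1 - 2 * Complex.I * inner ℂ x.2 v.2‖ ^ 2 / ht x ^ 2 + 4 * ‖v.2‖ ^ 2 / ht x

/-- A holomorphic isometry of complex hyperbolic space. -/
structure HolIsom {n : ℕ} (g : E n → E n) : Prop where
  maps : MapsTo g (Sg n) (Sg n)
  holo : DifferentiableOn ℂ g (Sg n)
  isom : ∀ x ∈ Sg n, ∀ v, hyp (g x) (fderiv ℂ g x v) = hyp x v

/-- The map `(τ, w) ↦ (e^{2πiτ/T}, w)`, the quotient by the translation `τ ↦ τ + T`. -/
noncomputable def cov {n : ℕ} (T : ℝ) (x : E n) : E n :=
  (Complex.exp (2 * Real.pi * Complex.I * x.1 / T), x.2)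

/-- The function `|z|² e^{4π|w|²/T}`; at the point `cov T (τ, w)` its value is `e^{-4π(Im τ - |w|²)/T}`. -/
noncomputable def nrm2 {n : ℕ} (T : ℝ) (x : E n) : ℝ :=
  ‖x.1‖ ^ 2 * Real.exp (4 * Real.pi / T * ‖x.2‖ ^ 2)

/-- The tube `|z|² e^{4π|w|²/T} < e^{-4πb/T}` about the boundary divisor `z = 0`: the quotient of the horoball
`Im τ - |w|² > b` by `τ ↦ τ + T`, together with `z = 0`. -/
def Tube (n : ℕ) (T b : ℝ) : Set (E n) := {x | nrm2 T x < Real.exp (-(4 * Real.pi * b / T))}

/-- A complex manifold `Y` which is a toroidal compactification of a complex hyperbolic manifold `Γ \ H`,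
`H = Sg n`, with cusps of depth greater than `2π`. -/
structure CuspClosing (n : ℕ) (Y : Type) [TopologicalSpace Y] [ChartedSpace (E n) Y] where
  /-- the group -/
  Γ : Type
  grp : Group Γ
  /-- its action on `H` by holomorphic isometries -/
  g : Γ → E n → E n
  g_isom : ∀ γ, HolIsom (g γ)
  g_one : ∀ x ∈ Sg n, g 1 x = x
  g_mul : ∀ γ δ, ∀ x ∈ Sg n, g (γ * δ) x = g γ (g δ x)
  /-- the projection `H → Γ \ H ⊆ Y`: the fibres are the orbits, and it is locally inverse to charts of `Y` -/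
  p : E n → Y
  p_rel : ∀ x ∈ Sg n, ∀ x' ∈ Sg n, p x = p x' ↔ ∃ γ, g γ x = x'
  p_chart : ∀ x ∈ Sg n, ∃ φ ∈ Charts (E n) Y, x ∈ φ.target ∧ φ.target ⊆ Sg n ∧
    ∀ x' ∈ φ.target, p x' = φ.symm x'
  /-- the cusps -/
  ι : Type
  fin : Finite ι
  /-- an isometry `A i` of `H` (with inverse `A' i`) which moves infinity to the cusp -/
  A : ι → E n → E n
  A' : ι → E n → E n
  A_isom : ∀ i, HolIsom (A i)
  A'_isom : ∀ i, HolIsom (A' i)
  A_inv : ∀ i, ∀ x ∈ Sg n, A i (A' i x) = x ∧ A' i (A i x) = x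
  /-- the period `T` of the centre of the cusp group and the height `b` of the horoball: the circle fibres of the
  horosphere of height `b` have length `T / b` -/
  T : ι → ℝ
  b : ι → ℝ
  b_pos : ∀ i, 0 < b i
  deep : ∀ i, 2 * Real.pi * b i < T i
  /-- the holomorphic map from the tube about `z = 0` to `Y`, locally inverse to charts of `Y`, which extends the
  projection -/
  Φ : ι → E n → Y
  Φ_cov : ∀ i x, b i < ht x → Φ i (cov (T i) x) = p (A i x)
  Φ_chart : ∀ i, ∀ x ∈ Tube n (T i) (b i), ∃ φ ∈ Charts (E n) Y, x ∈ φ.target ∧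
    φ.target ⊆ Tube n (T i) (b i) ∧ ∀ x' ∈ φ.target, Φ i x' = φ.symm x'
  /-- the boundary divisors are disjoint from `Γ \ H` -/
  disj : ∀ i w, ∀ x ∈ Sg n, Φ i (0, w) ≠ p x
  /-- the neighbourhoods of the cusps are embedded and disjoint -/
  emb : ∀ i j, ∀ x ∈ Tube n (T i) (b i), ∀ x' ∈ Tube n (T j) (b j), Φ i x = Φ j x' →
    i = j ∧ nrm2 (T i) x = nrm2 (T j) x'
  /-- `Y` is the union of `Γ \ H` and the boundary divisors -/
  cover : ∀ y, (∃ x ∈ Sg n, p x = y) ∨ ∃ i w, Φ i (0, w) = y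

end Pool.Agent.Nef6.CC
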