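import Pool.Agent.H.MP_6a1d6a_ag.CC.Cyl2

/-!
MP_6a1d6a_ag/CC, module Pres: maps which preserve the metric and the height preserve `Nz`.

For `x.1 ≠ 0` the function `log (nq l x) = 2 log |z| + l |w|²` has the real derivative `v ↦ 2 Re (Dz l x v / x.1)`. As
`nq ∘ t = nq` near `x` (and `(t x).1 ≠ 0`, because `nq l (t x) = nq l x ≠ 0`), and the derivative of `t` is complex linear:
`Re (Dz l (t x) (Dt v) / (t x).1) = Re (Dz l x v / x.1)` for all `v`; with `i v` in place of `v` also the imaginary parts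
agree. So `|Dz|/|z|` is preserved, `qz` is, and then `‖v.2‖` is (from `hz`, `qz > 0`). `Nz l k x v` depends only on
`nq`, `|Dz|²/|z|²`, `‖v.2‖²`: `e^{l|w|²} |Dz|² = nq |Dz|²/|z|²`, `e^{l|w|²} l |z|² |v.2|² = nq l |v.2|²`.
-/

set_option autoImplicit false

open Set Filter Topology Metric
open scoped ContDiff Manifold

namespace Pool.Agent.Nef6.CC

variable {n : ℕ}

private theorem Pres_inner (w u : EuclideanSpace ℂ (Fin n)) :
    inner ℝ w u = (inner ℂ w u : ℂ).re := by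
  rw [PiLp.inner_apply, PiLp.inner_apply, Complex.re_sum]
  refine Finset.sum_congr rfl fun i _ => ?_
  rw [Complex.inner, RCLike.inner_apply, mul_comm]

/-- The derivative of `nq` along a curve. -/
private theorem Pres_curve (l : ℝ) {c : ℝ → E n} {c' : E n} {s : ℝ} (hc : HasDerivAt c c' s) :
    HasDerivAt (fun s => nq l (c s))
      (2 * (Real.exp (l * ‖(c s).2‖ ^ 2) * ((starRingEnd ℂ) (c s).1 * Dz l (c s) c').re)) s := by
  have h1 : HasDerivAt (fun s => (c s).1) c'.1 s :=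
    (ContinuousLinearMap.fst ℝ ℂ (EuclideanSpace ℂ (Fin n))).hasFDerivAt.comp_hasDerivAt s hc
  have h2 : HasDerivAt (fun s => (c s).2) c'.2 s :=
    (ContinuousLinearMap.snd ℝ ℂ (EuclideanSpace ℂ (Fin n))).hasFDerivAt.comp_hasDerivAt s hc
  have h3 := h1.norm_sq
  have h4 := h2.norm_sq
  have h5 := (h4.const_mul l).exp
  have h6 := h3.mul h5
  refine HasDerivAt.congr_deriv h6 ?_
  rw [Pres_inner, Complex.inner]
  have h7 : (starRingEnd ℂ) (c s).1 * Dz l (c s) c' =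
      (starRingEnd ℂ) (c s).1 * c'.1 + ((l * ‖(c s).1‖ ^ 2 : ℝ) : ℂ) * inner ℂ (c s).2 c'.2 := by
    unfold Dz
    have h8 : (starRingEnd ℂ) (c s).1 * (c s).1 = ((‖(c s).1‖ ^ 2 : ℝ) : ℂ) := by
      rw [mul_comm, Complex.mul_conj, Complex.normSq_eq_norm_sq]
    push_cast at h8 ⊢
    linear_combination (l * inner ℂ (c s).2 c'.2) * h8
  rw [h7, Complex.add_re, Complex.re_ofReal_mul, mul_comm c'.1]
  ring

private theorem Pres_smul (l : ℝ) (x v : E n) (a : ℂ) : Dz l x (a • v) = a * Dz l x v := by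
  unfold Dz
  rw [Prod.smul_fst, Prod.smul_snd, inner_smul_right, smul_eq_mul]
  ring

private theorem Pres_re {l : ℝ} {t : E n → E n} {x : E n} (ht : DifferentiableAt ℂ t x)
    (hn : ∀ᶠ x' in 𝓝 x, nq l (t x') = nq l x') (v : E n) :
    Real.exp (l * ‖(t x).2‖ ^ 2) * ((starRingEnd ℂ) (t x).1 * Dz l (t x) (fderiv ℂ t x v)).re =
      Real.exp (l * ‖x.2‖ ^ 2) * ((starRingEnd ℂ) x.1 * Dz l x v).re := by
  have hc : HasDerivAt (fun s : ℝ => x + s • v) v 0 := by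
    have h1 := (hasDerivAt_id (0 : ℝ)).smul_const v
    have h2 := h1.const_add x
    simpa using h2
  have hx0 : x + (0 : ℝ) • v = x := by simp
  have ht' : HasFDerivAt t ((fderiv ℂ t x).restrictScalars ℝ) (x + (0 : ℝ) • v) := by
    rw [hx0]
    exact ht.hasFDerivAt.restrictScalars ℝ
  have hc1 : HasDerivAt (fun s : ℝ => t (x + s • v)) (fderiv ℂ t x v) 0 := by
    have h1 := ht'.comp_hasDerivAt (0 : ℝ) hc
    exact h1
  have h3 := Pres_curve l hc
  have h4 := Pres_curve l hc1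
  have h5 : (fun s : ℝ => nq l (x + s • v)) =ᶠ[𝓝 0] fun s : ℝ => nq l (t (x + s • v)) := by
    have h6 : Tendsto (fun s : ℝ => x + s • v) (𝓝 0) (𝓝 x) := by
      have := hc.continuousAt.tendsto
      rwa [hx0] at this
    exact (h6.eventually hn).mono fun s hs => hs.symm
  have h6 := h3.unique (h4.congr_of_eventuallyEq h5)
  simp only [hx0] at h6
  linarith

theorem Nz_pres {l k : ℝ} (hl : 0 < l) {t : E n → E n} {x : E n} (ht : DifferentiableAt ℂ t x)
    (hn : ∀ᶠ x' in 𝓝 x, nq l (t x') = nq l x') (h0 : x.1 ≠ 0) (h1 : nq l x < 1)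
    (hh : ∀ v, hz l (t x) (fderiv ℂ t x v) = hz l x v) (v : E n) :
    Nz l k (t x) (fderiv ℂ t x v) = Nz l k x v := by
  have hq : nq l (t x) = nq l x := hn.self_of_nhds
  have hx : 0 < ‖x.1‖ ^ 2 := by
    have := norm_pos_iff.2 h0
    positivity
  have hqp : 0 < nq l x := by
    unfold nq
    positivity
  have hz' : 0 < ‖(t x).1‖ ^ 2 := by
    have h2 : 0 < nq l (t x) := hq ▸ hqp
    unfold nq at h2
    exact pos_of_mul_pos_left h2 (Real.exp_pos _).le
  have hqz : qz l (t x) = qz l x := by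
    unfold qz
    rw [hq]
  have hqzp : 0 < qz l x := by
    unfold qz
    have := Real.log_neg hqp h1
    linarith
  -- the two real parts
  have h2 := Pres_re ht hn v
  have h3 := Pres_re ht hn (Complex.I • v)
  rw [map_smul, Pres_smul, Pres_smul] at h3
  have h4 : ∀ z D : ℂ, ((starRingEnd ℂ) z * (Complex.I * D)).re = -((starRingEnd ℂ) z * D).im := by
    intro z D
    have h5 : (starRingEnd ℂ) z * (Complex.I * D) = Complex.I * ((starRingEnd ℂ) z * D) := by ring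
    rw [h5, Complex.I_mul_re]
  rw [h4, h4] at h3
  obtain ⟨e', he'⟩ : ∃ e', e' = Real.exp (l * ‖(t x).2‖ ^ 2) := ⟨_, rfl⟩
  obtain ⟨e, he⟩ : ∃ e, e = Real.exp (l * ‖x.2‖ ^ 2) := ⟨_, rfl⟩
  have hep : 0 < e := he ▸ Real.exp_pos _
  have hep' : 0 < e' := he' ▸ Real.exp_pos _
  rw [← he, ← he'] at h2 h3
  have hns : ∀ z D : ℂ, ((starRingEnd ℂ) z * D).re ^ 2 + ((starRingEnd ℂ) z * D).im ^ 2 =
      ‖z‖ ^ 2 * ‖D‖ ^ 2 := by
    intro z D
    have h5 : Complex.normSq ((starRingEnd ℂ) z * D) = ‖z‖ ^ 2 * ‖D‖ ^ 2 := by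
      rw [Complex.normSq_mul, Complex.normSq_conj, Complex.normSq_eq_norm_sq,
        Complex.normSq_eq_norm_sq]
    rw [← h5, Complex.normSq_apply]
    ring
  have hq1 : ‖(t x).1‖ ^ 2 * e' = ‖x.1‖ ^ 2 * e := by
    rw [he, he']
    exact hq
  obtain ⟨D, hD⟩ : ∃ D, D = ‖Dz l x v‖ ^ 2 := ⟨_, rfl⟩
  obtain ⟨D', hD'⟩ : ∃ D', D' = ‖Dz l (t x) (fderiv ℂ t x v)‖ ^ 2 := ⟨_, rfl⟩
  have h6 : e' ^ 2 * (‖(t x).1‖ ^ 2 * D') = e ^ 2 * (‖x.1‖ ^ 2 * D) := by
    rw [hD, hD', ← hns, ← hns]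
    linear_combination (e' * ((starRingEnd ℂ) (t x).1 * Dz l (t x) (fderiv ℂ t x v)).re +
      e * ((starRingEnd ℂ) x.1 * Dz l x v).re) * h2 - (e' *
      ((starRingEnd ℂ) (t x).1 * Dz l (t x) (fderiv ℂ t x v)).im +
      e * ((starRingEnd ℂ) x.1 * Dz l x v).im) * h3
  have h7 : e' * D' = e * D := by
    have h8 : (‖x.1‖ ^ 2 * e) * (e' * D') = (‖x.1‖ ^ 2 * e) * (e * D) := by
      calc (‖x.1‖ ^ 2 * e) * (e' * D') = e' ^ 2 * (‖(t x).1‖ ^ 2 * D') := by
            rw [← hq1]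
            ring
        _ = _ := by
            rw [h6]
            ring
    exact mul_left_cancel₀ (by positivity) h8
  have h8 : D' / ‖(t x).1‖ ^ 2 = D / ‖x.1‖ ^ 2 := by
    rw [div_eq_div_iff hz'.ne' hx.ne']
    have h9 : e' * (D' * ‖x.1‖ ^ 2) = e' * (D * ‖(t x).1‖ ^ 2) := by
      linear_combination ‖x.1‖ ^ 2 * h7 - D * hq1
    exact mul_left_cancel₀ hep'.ne' h9
  have h9 : ‖(fderiv ℂ t x v).2‖ ^ 2 = ‖v.2‖ ^ 2 := by
    have h10 := hh v
    unfold hz at h10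
    rw [hqz, ← hD, ← hD', ← div_div, ← div_div, h8] at h10
    have h11 : 2 * l * ‖(fderiv ℂ t x v).2‖ ^ 2 / qz l x = 2 * l * ‖v.2‖ ^ 2 / qz l x := by
      linarith
    rw [div_left_inj' hqzp.ne'] at h11
    exact mul_left_cancel₀ (by positivity) h11
  have h10 : CC.h1 l k (t x) (fderiv ℂ t x v) = CC.h1 l k x v := by
    unfold CC.h1
    rw [← hD, ← hD', ← he, ← he', h9]
    linear_combination (k * Real.exp 2) * h7 + (k * Real.exp 2 * l * ‖v.2‖ ^ 2) * hq1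
  unfold Nz
  rw [hq, hh v, h10]

end Pool.Agent.Nef6.CC
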