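import Pool.Agent.H.MP_6a1d6a_ag.CC.Cyl2

/-!
MP_6a1d6a_ag/CC, module Tr: transition maps.

* `tr_smooth`: charts of the maximal atlas (`contMDiffOn_of_mem_maximalAtlas`, `contMDiffOn_symm_of_mem_maximalAtlas`, or
  `IsManifold.compatible_of_mem_maximalAtlas`).
* `tr_comp`: chain rule; near `φ y`, `φ'' ∘ φ.symm = (φ'' ∘ φ'.symm) ∘ (φ' ∘ φ.symm)`.
* `tr_hyp`: `γ` with `g γ (φ y) = φ' y` (`p_rel`), and `φ' ∘ φ.symm = g γ` near `φ y` (as in `good_trans`, G.lean).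
* `tr_cusp`: `y = φ.symm (φ y) = p (φ y)` and `= Φ i (φ' y)`; `(φ' y).1 ≠ 0` by `disj`; `x' ` with `cov (T i) x' = φ' y` and
  `b i < ht x'` (`ex_surj` with `l = 4π/T i`, the point is in the tube), `p (A i x') = p (φ y)`, so `g γ (φ y) = A i x'` for
  some `γ`; `B = A' i ∘ g γ`, `B (φ y) = x'`, and `φ' ∘ φ.symm = cov (T i) ∘ B` near `φ y` (near `φ y` the point
  `B x` has height `> b i`, `Φ i (cov (T i) (B x)) = p (A i (B x)) = p (g γ x) = p x = φ.symm x` and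
  `cov (T i) (B x) ∈ φ'.target`). Then `hz_ex`, `B` isometry.
* `tr_tube`: if `(φ y).1 ≠ 0`: `y = Φ i (φ y) = p x₀` for a point `x₀` of the domain (`ex_surj`, `Φ_cov`), a chart
  `φ₀` with `Inv (Sg n) X.p φ₀` at `x₀`; apply `tr_cusp` to `(φ₀, φ)` and `(φ₀, φ')` and `tr_comp`, (the derivative of
  `φ ∘ φ₀.symm` is onto, its inverse is the derivative of `φ₀ ∘ φ.symm`).
-/

set_option autoImplicit false

open Set Filter Topology Metric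
open scoped ContDiff Manifold

namespace Pool.Agent.Nef6.CC

section charts

variable {V : Type} [NormedAddCommGroup V] [NormedSpace ℂ V] {Y : Type} [TopologicalSpace Y]
  [ChartedSpace V Y] [IsManifold 𝓘(ℂ, V) ω Y]

theorem tr_smooth {φ φ' : OpenPartialHomeomorph Y V} (h : φ ∈ Charts V Y) (h' : φ' ∈ Charts V Y)
    {y : Y} (hy : y ∈ φ.source) (hy' : y ∈ φ'.source) : ContDiffAt ℂ ω (φ' ∘ φ.symm) (φ y) := by
  have h1 : ContMDiffAt 𝓘(ℂ, V) 𝓘(ℂ, V) ω φ.symm (φ y) :=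
    (contMDiffOn_symm_of_mem_maximalAtlas h).contMDiffAt (φ.open_target.mem_nhds (φ.map_source hy))
  have h2 : ContMDiffAt 𝓘(ℂ, V) 𝓘(ℂ, V) ω φ' (φ.symm (φ y)) := by
    rw [φ.left_inv hy]
    exact (contMDiffOn_of_mem_maximalAtlas h').contMDiffAt (φ'.open_source.mem_nhds hy')
  exact contMDiffAt_iff_contDiffAt.1 (ContMDiffAt.comp (φ y) h2 h1)

theorem tr_comp {φ φ' φ'' : OpenPartialHomeomorph Y V} (h : φ ∈ Charts V Y) (h' : φ' ∈ Charts V Y)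
    (h'' : φ'' ∈ Charts V Y) {y : Y} (hy : y ∈ φ.source) (hy' : y ∈ φ'.source)
    (hy'' : y ∈ φ''.source) (v : V) :
    fderiv ℂ (φ'' ∘ φ'.symm) (φ' y) (fderiv ℂ (φ' ∘ φ.symm) (φ y) v) =
      fderiv ℂ (φ'' ∘ φ.symm) (φ y) v := by
  have hd1 : DifferentiableAt ℂ (φ' ∘ φ.symm) (φ y) :=
    (tr_smooth h h' hy hy').differentiableAt (by simp)
  have hd2 : DifferentiableAt ℂ (φ'' ∘ φ'.symm) (φ' y) :=
    (tr_smooth h' h'' hy' hy'').differentiableAt (by simp)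
  have hval : (φ' ∘ φ.symm) (φ y) = φ' y := by
    rw [Function.comp_apply, φ.left_inv hy]
  have hev : (φ'' ∘ φ.symm) =ᶠ[𝓝 (φ y)] (φ'' ∘ φ'.symm) ∘ (φ' ∘ φ.symm) := by
    have h1 : ContinuousAt φ.symm (φ y) := φ.symm.continuousAt (φ.map_source hy)
    have h2 : ∀ᶠ x in 𝓝 (φ y), φ.symm x ∈ φ'.source := by
      refine h1.eventually_mem ?_
      rw [φ.left_inv hy]
      exact φ'.open_source.mem_nhds hy'
    filter_upwards [h2] with x hx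
    simp only [Function.comp_apply]
    rw [φ'.left_inv hx]
  rw [hev.fderiv_eq, fderiv_comp (φ y) (by rw [hval]; exact hd2) hd1, hval]
  rfl

theorem tr_id {φ : OpenPartialHomeomorph Y V} {y : Y} (hy : y ∈ φ.source) (v : V) :
    fderiv ℂ (φ ∘ φ.symm) (φ y) v = v := by
  have hev : (φ ∘ φ.symm) =ᶠ[𝓝 (φ y)] id := by
    filter_upwards [φ.open_target.mem_nhds (φ.map_source hy)] with x hx
    exact φ.right_inv hx
  rw [hev.fderiv_eq, fderiv_id]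
  rfl

end charts

variable {n : ℕ} {Y : Type} [TopologicalSpace Y] [ChartedSpace (E n) Y] [IsManifold 𝓘(ℂ, E n) ω Y]
  (X : CuspClosing n Y)

theorem tr_hyp {φ φ' : OpenPartialHomeomorph Y (E n)} (h : Inv (Sg n) X.p φ)
    (h' : Inv (Sg n) X.p φ') {y : Y} (hy : y ∈ φ.source) (hy' : y ∈ φ'.source) (v : E n) :
    hyp (φ' y) (fderiv ℂ (φ' ∘ φ.symm) (φ y) v) = hyp (φ y) v := by
  have hx : φ y ∈ φ.target := φ.map_source hy
  have hx' : φ' y ∈ φ'.target := φ'.map_source hy'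
  have hpx : X.p (φ y) = y := by rw [h.2.2 _ hx, φ.left_inv hy]
  have hpx' : X.p (φ' y) = y := by rw [h'.2.2 _ hx', φ'.left_inv hy']
  obtain ⟨γ, hγ⟩ := (X.p_rel _ (h.2.1 hx) _ (h'.2.1 hx')).1 (hpx.trans hpx'.symm)
  have hS : Sg n ∈ 𝓝 (φ y) := sg_open.mem_nhds (h.2.1 hx)
  have hca : ContinuousAt (X.g γ) (φ y) :=
    ((X.g_isom γ).holo.differentiableAt hS).continuousAt
  have hev : (φ' ∘ φ.symm) =ᶠ[𝓝 (φ y)] X.g γ := by
    have h1 : ∀ᶠ x in 𝓝 (φ y), x ∈ φ.target := φ.open_target.mem_nhds hx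
    have h2 : ∀ᶠ x in 𝓝 (φ y), X.g γ x ∈ φ'.target := by
      refine hca.eventually_mem ?_
      rw [hγ]
      exact φ'.open_target.mem_nhds hx'
    filter_upwards [h1, h2] with x hx1 hx2
    have h3 : X.p x = X.p (X.g γ x) := (X.p_rel _ (h.2.1 hx1) _ (h'.2.1 hx2)).2 ⟨γ, rfl⟩
    rw [h.2.2 _ hx1, h'.2.2 _ hx2] at h3
    show φ' (φ.symm x) = X.g γ x
    rw [h3, φ'.right_inv hx2]
  rw [hev.fderiv_eq, ← hγ]
  exact (X.g_isom γ).isom _ (h.2.1 hx) v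

theorem tr_T_pos (i : X.ι) : 0 < X.T i := by
  have h1 := X.deep i
  have h2 := X.b_pos i
  have h3 := Real.pi_pos
  have h4 : 0 < 2 * Real.pi * X.b i := by positivity
  linarith

theorem tr_cov_eq (T : ℝ) (x : E n) : cov T x = ex (4 * Real.pi / T) x := by
  unfold cov ex
  have h1 : 2 * (Real.pi : ℂ) * Complex.I * x.1 / (T : ℂ) =
      Complex.I * ((4 * Real.pi / T : ℝ) : ℂ) / 2 * x.1 := by
    push_cast
    ring
  rw [h1]

/-- a point of the tube off the divisor comes from the horoball -/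
theorem tr_lift (i : X.ι) {x : E n} (hx : x ∈ Tube n (X.T i) (X.b i)) (h0 : x.1 ≠ 0) :
    ∃ x₁ : E n, ex (4 * Real.pi / X.T i) x₁ = x ∧ X.b i < ht x₁ := by
  have hT := tr_T_pos X i
  have hl : 0 < 4 * Real.pi / X.T i := by
    have := Real.pi_pos
    positivity
  obtain ⟨x₁, h1, -⟩ := ex_surj hl h0
  refine ⟨x₁, h1, ?_⟩
  have h2 : nq (4 * Real.pi / X.T i) x < Real.exp (-(4 * Real.pi * X.b i / X.T i)) := hx
  rw [← h1, nq_ex, Real.exp_lt_exp] at h2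
  have h3 : 4 * Real.pi * X.b i / X.T i = 4 * Real.pi / X.T i * X.b i := by ring
  rw [h3] at h2
  exact lt_of_mul_lt_mul_left (neg_lt_neg_iff.1 h2) hl.le

theorem tr_cusp (i : X.ι) {φ φ' : OpenPartialHomeomorph Y (E n)} (h : Inv (Sg n) X.p φ)
    (h' : Inv (Tube n (X.T i) (X.b i)) (X.Φ i) φ') {y : Y} (hy : y ∈ φ.source)
    (hy' : y ∈ φ'.source) :
    (φ' y).1 ≠ 0 ∧ ∀ v, hz (4 * Real.pi / X.T i) (φ' y) (fderiv ℂ (φ' ∘ φ.symm) (φ y) v) =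
      hyp (φ y) v := by
  have hx : φ y ∈ φ.target := φ.map_source hy
  have hx' : φ' y ∈ φ'.target := φ'.map_source hy'
  have hpx : X.p (φ y) = y := by rw [h.2.2 _ hx, φ.left_inv hy]
  have hpx' : X.Φ i (φ' y) = y := by rw [h'.2.2 _ hx', φ'.left_inv hy']
  have h0 : (φ' y).1 ≠ 0 := by
    intro h1
    refine X.disj i (φ' y).2 (φ y) (h.2.1 hx) ?_
    have h2 : ((0 : ℂ), (φ' y).2) = φ' y := Prod.ext h1.symm rfl
    rw [h2, hpx', hpx]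
  refine ⟨h0, fun v => ?_⟩
  have hT := tr_T_pos X i
  have hl : 0 < 4 * Real.pi / X.T i := by
    have := Real.pi_pos
    positivity
  obtain ⟨x₁, hx₁, hb⟩ := tr_lift X i (h'.2.1 hx') h0
  have hx₁S : x₁ ∈ Sg n := (X.b_pos i).trans hb
  have h1 : X.p (φ y) = X.p (X.A i x₁) := by
    rw [hpx, ← X.Φ_cov i x₁ hb, tr_cov_eq, hx₁, hpx']
  obtain ⟨γ, hγ⟩ := (X.p_rel _ (h.2.1 hx) _ ((X.A_isom i).maps hx₁S)).1 h1
  have hS : Sg n ∈ 𝓝 (φ y) := sg_open.mem_nhds (h.2.1 hx)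
  have hgS : X.g γ (φ y) ∈ Sg n := (X.g_isom γ).maps (h.2.1 hx)
  have hS' : Sg n ∈ 𝓝 (X.g γ (φ y)) := sg_open.mem_nhds hgS
  have hdg : DifferentiableAt ℂ (X.g γ) (φ y) := (X.g_isom γ).holo.differentiableAt hS
  have hdA : DifferentiableAt ℂ (X.A' i) (X.g γ (φ y)) :=
    (X.A'_isom i).holo.differentiableAt hS'
  have hBx : X.A' i (X.g γ (φ y)) = x₁ := by
    rw [hγ]
    exact (X.A_inv i x₁ hx₁S).2
  have hdB : DifferentiableAt ℂ (X.A' i ∘ X.g γ) (φ y) := hdA.comp _ hdg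
  have hcB : ContinuousAt (X.A' i ∘ X.g γ) (φ y) := hdB.continuousAt
  have hht : Continuous fun x : E n => ht x := by
    unfold ht
    fun_prop
  have hev : (φ' ∘ φ.symm) =ᶠ[𝓝 (φ y)] ex (4 * Real.pi / X.T i) ∘ (X.A' i ∘ X.g γ) := by
    have e1 : ∀ᶠ x in 𝓝 (φ y), x ∈ φ.target := φ.open_target.mem_nhds hx
    have e2 : ∀ᶠ x in 𝓝 (φ y), X.b i < ht ((X.A' i ∘ X.g γ) x) := by
      have h2 : ContinuousAt (fun x => ht ((X.A' i ∘ X.g γ) x)) (φ y) :=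
        hht.continuousAt.comp hcB
      refine h2.eventually_const_lt ?_
      show X.b i < ht (X.A' i (X.g γ (φ y)))
      rw [hBx]
      exact hb
    have e3 : ∀ᶠ x in 𝓝 (φ y), ex (4 * Real.pi / X.T i) ((X.A' i ∘ X.g γ) x) ∈ φ'.target := by
      have h2 : ContinuousAt (fun x => ex (4 * Real.pi / X.T i) ((X.A' i ∘ X.g γ) x)) (φ y) :=
        (ex_diff (4 * Real.pi / X.T i)).continuous.continuousAt.comp hcB
      refine h2.eventually_mem ?_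
      show φ'.target ∈ 𝓝 (ex (4 * Real.pi / X.T i) (X.A' i (X.g γ (φ y))))
      rw [hBx, hx₁]
      exact φ'.open_target.mem_nhds hx'
    filter_upwards [e1, e2, e3] with x hx1 hx2 hx3
    have hxS : x ∈ Sg n := h.2.1 hx1
    have hgx : X.g γ x ∈ Sg n := (X.g_isom γ).maps hxS
    have h3 : X.Φ i (ex (4 * Real.pi / X.T i) ((X.A' i ∘ X.g γ) x)) = φ.symm x := by
      rw [← tr_cov_eq, X.Φ_cov i _ hx2]
      show X.p (X.A i (X.A' i (X.g γ x))) = φ.symm x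
      rw [(X.A_inv i _ hgx).1, ← (X.p_rel x hxS _ hgx).2 ⟨γ, rfl⟩, h.2.2 x hx1]
    rw [h'.2.2 _ hx3] at h3
    show φ' (φ.symm x) = ex (4 * Real.pi / X.T i) ((X.A' i ∘ X.g γ) x)
    rw [← h3, φ'.right_inv hx3]
  have hchain : fderiv ℂ (φ' ∘ φ.symm) (φ y) v =
      ex' (4 * Real.pi / X.T i) x₁ (fderiv ℂ (X.A' i) (X.g γ (φ y)) (fderiv ℂ (X.g γ) (φ y) v)) := by
    rw [hev.fderiv_eq, fderiv_comp (φ y) (ex_diff (4 * Real.pi / X.T i)).differentiableAt hdB,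
      fderiv_comp (φ y) hdA hdg]
    have h2 : (X.A' i ∘ X.g γ) (φ y) = x₁ := hBx
    rw [h2]
    exact ex_fderiv (4 * Real.pi / X.T i) x₁ _
  rw [hchain, ← hx₁, hz_ex hl hx₁S, ← (X.g_isom γ).isom (φ y) (h.2.1 hx) v,
    ← (X.A'_isom i).isom (X.g γ (φ y)) hgS, hBx]

theorem tr_tube (i : X.ι) {φ φ' : OpenPartialHomeomorph Y (E n)}
    (h : Inv (Tube n (X.T i) (X.b i)) (X.Φ i) φ) (h' : Inv (Tube n (X.T i) (X.b i)) (X.Φ i) φ')
    {y : Y} (hy : y ∈ φ.source) (hy' : y ∈ φ'.source) (h0 : (φ y).1 ≠ 0) (v : E n) :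
    hz (4 * Real.pi / X.T i) (φ' y) (fderiv ℂ (φ' ∘ φ.symm) (φ y) v) =
      hz (4 * Real.pi / X.T i) (φ y) v := by
  have hx : φ y ∈ φ.target := φ.map_source hy
  have hpx : X.Φ i (φ y) = y := by rw [h.2.2 _ hx, φ.left_inv hy]
  obtain ⟨x₁, hx₁, hb⟩ := tr_lift X i (h.2.1 hx) h0
  have hx₁S : x₁ ∈ Sg n := (X.b_pos i).trans hb
  obtain ⟨φ₀, hφ₀, hx₀, hsub, hp⟩ := X.p_chart (X.A i x₁) ((X.A_isom i).maps hx₁S)
  have hinv : Inv (Sg n) X.p φ₀ := ⟨hφ₀, hsub, hp⟩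
  have hy₀ : y ∈ φ₀.source := by
    have h1 : φ₀.symm (X.A i x₁) = y := by
      rw [← hp _ hx₀, ← X.Φ_cov i x₁ hb, tr_cov_eq, hx₁, hpx]
    rw [← h1]
    exact φ₀.map_target hx₀
  have h1 := (tr_cusp X i hinv h hy₀ hy).2 (fderiv ℂ (φ₀ ∘ φ.symm) (φ y) v)
  have h2 := (tr_cusp X i hinv h' hy₀ hy').2 (fderiv ℂ (φ₀ ∘ φ.symm) (φ y) v)
  rw [tr_comp h.1 hφ₀ h.1 hy hy₀ hy, tr_id hy] at h1
  rw [tr_comp h.1 hφ₀ h'.1 hy hy₀ hy'] at h2
  rw [h2, h1]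

end Pool.Agent.Nef6.CC
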