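import Pool.Agent.H.MP_6a1d6a_ag.CC.Glue
import Pool.Agent.H.MP_6a1d6a_ag.CC.Pres
import Pool.Agent.H.MP_6a1d6a_ag.CC.Tr

/-!
MP_6a1d6a_ag/CC, module Comp: the glued norm does not depend on the chart of the cusp.

`t = φ' ∘ φ.symm`. By `emb`, `nrm2 (t x) = nrm2 x` for `x` near `φ y` (`Φ i x = φ.symm x = Φ i (t x)`), and `nrm2 (T i) = nq l`,
`l = 4π/T i` (`rfl`). If `(φ y).1 ≠ 0`: `Nz_pres` with `tr_tube`. In general the points `x` near `φ y` with `x.1 ≠ 0` are dense; at these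
points (the point `φ.symm x` in place of `y`) `Nz (t x) (Dt x v) = Nz x v` by the first case; both sides are continuous
in `x` at `φ y` (`Nz_loc` gives continuity of `Nz` near `φ y` and near `φ' y`; `tr_smooth` gives continuity of `t` and
`x ↦ fderiv ℂ t x v`). On the tube `nq < e^{-l b} < 1`.
-/

set_option autoImplicit false

open Set Filter Topology Metric
open scoped ContDiff Manifold

namespace Pool.Agent.Nef6.CC

variable {n : ℕ} {Y : Type} [TopologicalSpace Y] [ChartedSpace (E n) Y] [IsManifold 𝓘(ℂ, E n) ω Y]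
  (X : CuspClosing n Y)

theorem tube_lt (i : X.ι) {x : E n} (hx : x ∈ Tube n (X.T i) (X.b i)) :
    nq (4 * Real.pi / X.T i) x < 1 := by
  have hb := X.b_pos i
  have hT : 0 < X.T i := lt_trans (by positivity) (X.deep i)
  have h1 : nrm2 (X.T i) x < Real.exp (-(4 * Real.pi * X.b i / X.T i)) := hx
  have h2 : Real.exp (-(4 * Real.pi * X.b i / X.T i)) < 1 := by
    rw [Real.exp_lt_one_iff, neg_lt_zero]
    positivity
  exact h1.trans h2

theorem tube_open (T b : ℝ) : IsOpen (Tube n T b) := by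
  refine isOpen_lt ?_ continuous_const
  unfold nrm2
  fun_prop

theorem comp_tube (i : X.ι) {k : ℝ} (hk : 1 < k) {φ φ' : OpenPartialHomeomorph Y (E n)}
    (h : Inv (Tube n (X.T i) (X.b i)) (X.Φ i) φ) (h' : Inv (Tube n (X.T i) (X.b i)) (X.Φ i) φ')
    {y : Y} (hy : y ∈ φ.source) (hy' : y ∈ φ'.source) (v : E n) :
    Nz (4 * Real.pi / X.T i) k (φ' y) (fderiv ℂ (φ' ∘ φ.symm) (φ y) v) =
      Nz (4 * Real.pi / X.T i) k (φ y) v := by
  have hb := X.b_pos i
  have hT : 0 < X.T i := lt_trans (by positivity) (X.deep i)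
  have hl : 0 < 4 * Real.pi / X.T i := by positivity
  obtain ⟨t, ht⟩ : ∃ t : E n → E n, t = φ' ∘ φ.symm := ⟨_, rfl⟩
  obtain ⟨S, hS⟩ : ∃ S : Set (E n), S = φ.target ∩ φ.symm ⁻¹' φ'.source := ⟨_, rfl⟩
  have hSo : IsOpen S := by
    rw [hS]
    exact φ.symm.isOpen_inter_preimage φ'.open_source
  have hyS : φ y ∈ S := by
    rw [hS]
    refine ⟨φ.map_source hy, ?_⟩
    rw [mem_preimage, φ.left_inv hy]
    exact hy'
  have hxs : ∀ x ∈ S, x ∈ φ.target ∧ φ.symm x ∈ φ.source ∧ φ.symm x ∈ φ'.source ∧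
      φ (φ.symm x) = x ∧ t x = φ' (φ.symm x) ∧ t x ∈ φ'.target := by
    intro x hx
    rw [hS] at hx
    obtain ⟨h1, h2⟩ := hx
    refine ⟨h1, φ.map_target h1, h2, φ.right_inv h1, by rw [ht]; rfl, ?_⟩
    rw [ht]
    exact φ'.map_source h2
  have hnq : ∀ x ∈ S, nq (4 * Real.pi / X.T i) (t x) = nq (4 * Real.pi / X.T i) x := by
    intro x hx
    obtain ⟨h1, h2, h3, h4, h5, h6⟩ := hxs x hx
    have h7 : X.Φ i x = X.Φ i (t x) := by
      rw [h.2.2 x h1, h'.2.2 (t x) h6, h5, φ'.left_inv h3]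
    exact (X.emb i i x (h.2.1 h1) (t x) (h'.2.1 h6) h7).2.symm
  have hsm : ∀ x ∈ S, ContDiffAt ℂ ω t x := by
    intro x hx
    obtain ⟨h1, h2, h3, h4, h5, h6⟩ := hxs x hx
    have h7 := tr_smooth h.1 h'.1 h2 h3
    rwa [h4, ← ht] at h7
  have hmain : ∀ x ∈ S, x.1 ≠ 0 → Nz (4 * Real.pi / X.T i) k (t x) (fderiv ℂ t x v) =
      Nz (4 * Real.pi / X.T i) k x v := by
    intro x hx h0
    obtain ⟨h1, h2, h3, h4, h5, h6⟩ := hxs x hx
    refine Nz_pres hl ((hsm x hx).differentiableAt (by simp)) ?_ h0 (tube_lt X i (h.2.1 h1)) ?_ v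
    · filter_upwards [hSo.mem_nhds hx] with x' hx'
      exact hnq x' hx'
    · intro w
      have h7 := tr_tube X i h h' h2 h3 (by rw [h4]; exact h0) w
      rwa [h4, ← h5, ← ht] at h7
  -- continuity at `φ y`
  have hty : t (φ y) = φ' y := by
    rw [ht, Function.comp_apply, φ.left_inv hy]
  obtain ⟨U, hUW, hyU, hU⟩ := Nz_loc hl hk (tube_open (X.T i) (X.b i))
    (fun x hx => tube_lt X i hx) (h.2.1 (φ.map_source hy))
  obtain ⟨U', hUW', hyU', hU'⟩ := Nz_loc hl hk (tube_open (X.T i) (X.b i))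
    (fun x hx => tube_lt X i hx) (h'.2.1 (φ'.map_source hy'))
  have hcF : ContinuousAt (fun x => Nz (4 * Real.pi / X.T i) k x v) (φ y) := by
    have h1 : ContinuousAt (fun q : E n × E n => Nz (4 * Real.pi / X.T i) k q.1 q.2) (φ y, v) :=
      hU.cont.continuousAt ((hU.op.prod isOpen_univ).mem_nhds ⟨hyU, mem_univ _⟩)
    exact h1.comp (f := fun x : E n => (x, v)) (by fun_prop)
  have hcG : ContinuousAt (fun x => Nz (4 * Real.pi / X.T i) k (t x) (fderiv ℂ t x v)) (φ y) := by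
    have h1 : ContinuousAt (fun q : E n × E n => Nz (4 * Real.pi / X.T i) k q.1 q.2)
        (t (φ y), fderiv ℂ t (φ y) v) := by
      rw [hty]
      exact hU'.cont.continuousAt ((hU'.op.prod isOpen_univ).mem_nhds ⟨hyU', mem_univ _⟩)
    have h2 : ContinuousAt t (φ y) := (hsm _ hyS).continuousAt
    have h3 : ContinuousAt (fun x => fderiv ℂ t x v) (φ y) := by
      have h4 : ContDiffAt ℂ 0 (fderiv ℂ t) (φ y) := (hsm _ hyS).fderiv_right (by simp)
      exact h4.continuousAt.clm_apply continuousAt_const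
    exact h1.comp (f := fun x : E n => (t x, fderiv ℂ t x v)) (h2.prodMk h3)
  have hdense : Dense {x : E n | x.1 ≠ 0} := by
    have h1 : Dense ((Prod.fst : E n → ℂ) ⁻¹' {0}ᶜ) :=
      (dense_compl_singleton (0 : ℂ)).preimage isOpenMap_fst
    exact h1
  have hne : (𝓝[{x : E n | x.1 ≠ 0}] (φ y)).NeBot := mem_closure_iff_nhdsWithin_neBot.1 (hdense _)
  have h1 := hcF.continuousWithinAt (s := {x : E n | x.1 ≠ 0}).tendsto
  have h2 := hcG.continuousWithinAt (s := {x : E n | x.1 ≠ 0}).tendsto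
  have h3 : (fun x => Nz (4 * Real.pi / X.T i) k (t x) (fderiv ℂ t x v)) =ᶠ[𝓝[{x : E n | x.1 ≠ 0}] (φ y)]
      fun x => Nz (4 * Real.pi / X.T i) k x v := by
    filter_upwards [self_mem_nhdsWithin, nhdsWithin_le_nhds (hSo.mem_nhds hyS)] with x hx hxS
    exact hmain x hxS hx
  have h4 := tendsto_nhds_unique (h2.congr' h3) h1
  rw [hty, ht] at h4
  exact h4

end Pool.Agent.Nef6.CC
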