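import Pool.Agent.H.MP_6a1d6a_ag.CC.Peak

/-!
MP_6a1d6a_ag/CC, module Cyl1: the metric `h1` has a plurisubharmonic logarithm on the whole space.

* Translations `g_η (z, w) = (z e^{-l⟨w, η⟩ - l|η|²/2}, w + η)`, derivative at `(z, w)`:
  `(v_z, v_w) ↦ ((v_z - l z ⟨v_w, η⟩) e^{-l⟨w, η⟩ - l|η|²/2}, v_w)`; `h1 l k (g_η x) (dg_η v) = h1 l k x v`
  (`⟨a, b⟩ = inner ℂ b a`; `Dz` is multiplied by the exponential factor, `|z|² e^{l|w|²}` is invariant).
* Peak at a point `x₀ = (z₀, 0)`: `P (x, v) = √k e v.1`, `Q (x, v) = √k e √l (x.1 v.2 + v.1 x.2)`,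
  `R (x, v) = √k √l v.2`. `‖P‖² + ‖Q‖² + ‖R‖² ≤ h1 l k x v` follows from `key`: with `a = v.1`, `ξ = √l x.1 v.2`, `ω = √l x.2`:
  `|a|² + ‖ξ + a ω‖² ≤ e^{‖ω‖²} (|a + ⟨ξ, ω⟩|² + ‖ξ‖²)`. Equality at `x₀` (`w = 0`).
* `key`: let `t = ‖ω‖²`, `y = ⟨ξ, ω⟩`, `|y|² ≤ t ‖ξ‖²`. Difference of the two sides:
  `|a|² (e^t - 1 - t) + 2 Re(ā y)(e^t - 1) + e^t |y|² + ‖ξ‖² (e^t - 1)`; for `t = 0` it is 0 (`ω = 0`, `y = 0`), else
  `‖ξ‖² ≥ |y|²/t` and with `A = e^t - 1 - t ≥ 0`, `B = e^t - 1`, `C = e^t + (e^t - 1)/t`: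
  `A |a|² + 2 B Re(ā y) + C |y|² ≥ 0` because `B² ≤ A C`, i.e. `B² ≥ t² e^t`, i.e. `e^t - 1 ≥ t e^{t/2}`, i.e.
  `2 sinh (t/2) ≥ t` (`Real.self_le_sinh_iff` or similar).
* General point: `PeakAt.pull` with `L = g_{-w₀}`.
* `pos`: `v.2 ≠ 0` from the last term, `v.2 = 0`: `Dz = v.1 ≠ 0`. `cont`, `hom`: elementary.
-/

set_option autoImplicit false

open Set Filter Topology Metric
open scoped ContDiff Manifold

namespace Pool.Agent.Nef6.CC

variable {n : ℕ}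

/-- The real inequality behind `key`. -/
private theorem key_real {t p s X r : ℝ} (ht : 0 ≤ t)
    (hX : s ^ 2 ≤ t * X) (hr : |r| ≤ p * s) :
    0 ≤ p ^ 2 * (Real.exp t - 1 - t) + 2 * r * (Real.exp t - 1) + Real.exp t * s ^ 2 +
      X * (Real.exp t - 1) := by
  rcases ht.eq_or_lt with h0 | h0
  · subst h0
    have : s ^ 2 = 0 := le_antisymm (by simpa using hX) (sq_nonneg s)
    simp [this]
  · have hu : t < Real.exp t - 1 := by
      have := Real.add_one_lt_exp h0.ne'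
      linarith
    have hq : t ^ 2 * Real.exp t ≤ (Real.exp t - 1) ^ 2 := by
      have h1 : t / 2 ≤ Real.sinh (t / 2) := Real.self_le_sinh_iff.2 (by positivity)
      rw [Real.sinh_eq] at h1
      have h2 : t * Real.exp (t / 2) ≤ Real.exp t - 1 := by
        have h3 : t ≤ Real.exp (t / 2) - Real.exp (-(t / 2)) := by linarith
        have h4 := mul_le_mul_of_nonneg_right h3 (Real.exp_pos (t / 2)).le
        rw [sub_mul, ← Real.exp_add, ← Real.exp_add] at h4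
        simpa using h4
      have h5 : Real.exp t = Real.exp (t / 2) ^ 2 := by
        rw [sq, ← Real.exp_add]
        congr 1
        ring
      have h6 := pow_le_pow_left₀ (by positivity) h2 2
      rw [mul_pow, ← h5] at h6
      exact h6
    set u := Real.exp t - 1 with hudef
    have hE : Real.exp t = u + 1 := by rw [hudef]; ring
    rw [hE] at hq ⊢
    have hu0 : 0 < u := h0.trans hu
    have hr' : -(p * s) ≤ r := (abs_le.1 hr).1
    have h7 : s ^ 2 / t ≤ X := by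
      rw [div_le_iff₀ h0]
      linarith
    -- the quadratic form
    have h8 : 0 ≤ (u - t) * (t * (p ^ 2 * (u - t)) - 2 * (t * (p * s * u)) +
        (t * (u + 1) + u) * s ^ 2) := by
      have : (u - t) * (t * (p ^ 2 * (u - t)) - 2 * (t * (p * s * u)) + (t * (u + 1) + u) * s ^ 2) =
          t * ((u - t) * p - u * s) ^ 2 + (u ^ 2 - t ^ 2 * (u + 1)) * s ^ 2 := by ring
      rw [this]
      have h9 : 0 ≤ u ^ 2 - t ^ 2 * (u + 1) := by linarith
      positivity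
    have h10 : 0 ≤ t * (p ^ 2 * (u - t)) - 2 * (t * (p * s * u)) + (t * (u + 1) + u) * s ^ 2 :=
      nonneg_of_mul_nonneg_right h8 (by linarith)
    have h11 : 0 ≤ t * (p ^ 2 * (u - t) + 2 * r * u + (u + 1) * s ^ 2 + X * u) := by
      have h12 : t * (p ^ 2 * (u - t)) - 2 * (t * (p * s * u)) + (t * (u + 1) + u) * s ^ 2 ≤
          t * (p ^ 2 * (u - t) + 2 * r * u + (u + 1) * s ^ 2 + X * u) := by
        have h13 : 0 ≤ t * u * (r + p * s) := by
          have : 0 ≤ r + p * s := by linarith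
          positivity
        have h14 : 0 ≤ u * (t * X - s ^ 2) := mul_nonneg hu0.le (by linarith)
        nlinarith [h13, h14]
      linarith
    exact nonneg_of_mul_nonneg_right h11 h0

theorem key {F : Type} [NormedAddCommGroup F] [InnerProductSpace ℂ F] (a : ℂ) (ξ η : F) :
    ‖a‖ ^ 2 + ‖ξ + a • η‖ ^ 2 ≤ Real.exp (‖η‖ ^ 2) * (‖a + inner ℂ η ξ‖ ^ 2 + ‖ξ‖ ^ 2) := by
  set y : ℂ := inner ℂ η ξ with hy
  have e1 : ‖ξ + a • η‖ ^ 2 = ‖ξ‖ ^ 2 + 2 * (a * (starRingEnd ℂ) y).re + ‖a‖ ^ 2 * ‖η‖ ^ 2 := by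
    rw [@norm_add_sq ℂ, inner_smul_right, norm_smul, mul_pow, hy, inner_conj_symm]
    rfl
  have e2 : ‖a + y‖ ^ 2 = ‖a‖ ^ 2 + 2 * (a * (starRingEnd ℂ) y).re + ‖y‖ ^ 2 := by
    rw [← Complex.normSq_eq_norm_sq, ← Complex.normSq_eq_norm_sq, ← Complex.normSq_eq_norm_sq,
      Complex.normSq_add]
    ring
  have h1 : ‖y‖ ^ 2 ≤ ‖η‖ ^ 2 * ‖ξ‖ ^ 2 := by
    rw [← mul_pow]
    exact pow_le_pow_left₀ (norm_nonneg _) (norm_inner_le_norm η ξ) 2
  have h2 : |(a * (starRingEnd ℂ) y).re| ≤ ‖a‖ * ‖y‖ := by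
    refine (Complex.abs_re_le_norm _).trans ?_
    rw [norm_mul, RCLike.norm_conj]
  have h3 := key_real (t := ‖η‖ ^ 2) (sq_nonneg _) h1 h2
  rw [e1, e2]
  nlinarith [h3]

private theorem h1_nn {l k : ℝ} (hl : 0 < l) (hk : 0 < k) (x v : E n) : 0 ≤ h1 l k x v := by
  unfold h1
  positivity

private theorem h1_pos {l k : ℝ} (hl : 0 < l) (hk : 0 < k) (x v : E n) (hv : v ≠ 0) :
    0 < h1 l k x v := by
  unfold h1
  by_cases h2 : v.2 = 0
  · have h1 : v.1 ≠ 0 := by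
      intro h1
      exact hv (Prod.ext h1 h2)
    have hD : Dz l x v = v.1 := by simp [Dz, h2]
    have : 0 < ‖Dz l x v‖ := by rw [hD]; exact norm_pos_iff.2 h1
    positivity
  · have : 0 < ‖v.2‖ := norm_pos_iff.2 h2
    positivity

private theorem h1_smul {l k : ℝ} (x v : E n) (c : ℂ) :
    h1 l k x (c • v) = ‖c‖ ^ 2 * h1 l k x v := by
  have hD : Dz l x (c • v) = c * Dz l x v := by
    simp only [Dz, Prod.smul_fst, Prod.smul_snd, inner_smul_right, smul_eq_mul]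
    ring
  unfold h1
  rw [hD, Prod.smul_snd, norm_mul, norm_smul]
  ring

private theorem h1_cont (l k : ℝ) : Continuous fun q : E n × E n => h1 l k q.1 q.2 := by
  unfold h1 Dz
  fun_prop

/-- The translation. -/
private noncomputable def cc (l : ℝ) (w₀ w : EuclideanSpace ℂ (Fin n)) : ℂ :=
  Complex.exp (l * inner ℂ w₀ w - l * (‖w₀‖ ^ 2 : ℝ) / 2)

private theorem cc_norm (l : ℝ) (w₀ w : EuclideanSpace ℂ (Fin n)) :
    ‖cc l w₀ w‖ ^ 2 * Real.exp (l * ‖w - w₀‖ ^ 2) = Real.exp (l * ‖w‖ ^ 2) := by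
  have h1 : ‖cc l w₀ w‖ = Real.exp (l * (inner ℂ w₀ w).re - l * ‖w₀‖ ^ 2 / 2) := by
    rw [cc, Complex.norm_exp]
    congr 1
    have : (l * inner ℂ w₀ w - l * (‖w₀‖ ^ 2 : ℝ) / 2 : ℂ) =
        (l : ℂ) * inner ℂ w₀ w - ((l * ‖w₀‖ ^ 2 / 2 : ℝ) : ℂ) := by
      push_cast
      ring
    rw [this, Complex.sub_re, Complex.re_ofReal_mul, Complex.ofReal_re]
  have h2 : ‖w - w₀‖ ^ 2 = ‖w‖ ^ 2 - 2 * (inner ℂ w₀ w).re + ‖w₀‖ ^ 2 := by
    rw [@norm_sub_sq ℂ, inner_re_symm]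
    rfl
  rw [h1, h2, ← Real.exp_nat_mul, ← Real.exp_add]
  congr 1
  push_cast
  ring

private theorem cc_ne (l : ℝ) (w₀ w : EuclideanSpace ℂ (Fin n)) : cc l w₀ w ≠ 0 :=
  Complex.exp_ne_zero _

/-- The map `g`. -/
private noncomputable def gL (l : ℝ) (w₀ : EuclideanSpace ℂ (Fin n)) (x : E n) : E n :=
  (x.1 * cc l w₀ x.2, x.2 - w₀)

/-- Its derivative. -/
private noncomputable def gL' (l : ℝ) (w₀ : EuclideanSpace ℂ (Fin n)) (q : E n × E n) : E n :=
  ((q.2.1 + l * q.1.1 * inner ℂ w₀ q.2.2) * cc l w₀ q.1.2, q.2.2)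

private theorem gL_inv {l k : ℝ} (w₀ : EuclideanSpace ℂ (Fin n)) (x v : E n) :
    h1 l k (gL l w₀ x) (gL' l w₀ (x, v)) = h1 l k x v := by
  have hD : Dz l (gL l w₀ x) (gL' l w₀ (x, v)) = cc l w₀ x.2 * Dz l x v := by
    simp only [Dz, gL, gL', inner_sub_left]
    ring
  unfold h1
  rw [hD]
  simp only [gL, gL', norm_mul]
  rw [← cc_norm l w₀ x.2]
  ring

private theorem cc_diff (l : ℝ) (w₀ : EuclideanSpace ℂ (Fin n)) :
    Differentiable ℂ (cc l w₀) := by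
  unfold cc
  have : Differentiable ℂ fun w : EuclideanSpace ℂ (Fin n) => inner ℂ w₀ w :=
    (innerSL ℂ w₀).differentiable
  fun_prop

private theorem gL_diff (l : ℝ) (w₀ : EuclideanSpace ℂ (Fin n)) :
    Differentiable ℂ (gL l w₀) := by
  have h := cc_diff l w₀
  have h1 : Differentiable ℂ fun x : E n => cc l w₀ x.2 := h.comp differentiable_snd
  unfold gL
  fun_prop

private theorem gL'_diff (l : ℝ) (w₀ : EuclideanSpace ℂ (Fin n)) :
    Differentiable ℂ (gL' l w₀) := by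
  have h := cc_diff l w₀
  have h1 : Differentiable ℂ fun q : E n × E n => cc l w₀ q.1.2 :=
    h.comp (differentiable_snd.comp differentiable_fst)
  have h2 : Differentiable ℂ fun w : EuclideanSpace ℂ (Fin n) => inner ℂ w₀ w :=
    (innerSL ℂ w₀).differentiable
  have h3 : Differentiable ℂ fun q : E n × E n => (inner ℂ w₀ q.2.2 : ℂ) :=
    h2.comp (differentiable_snd.comp differentiable_snd)
  unfold gL'
  fun_prop

private theorem peak_zero {l k : ℝ} (hl : 0 < l) (hk : 0 < k) (x₀ v₀ : E n) (hx : x₀.2 = 0)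
    (hv : v₀ ≠ 0) : PeakAt (fun x v : E n => √(h1 l k x v)) univ x₀ v₀ := by
  have hkl : √k ^ 2 = k := Real.sq_sqrt hk.le
  have hll : √l ^ 2 = l := Real.sq_sqrt hl.le
  have hee : Real.exp 1 ^ 2 = Real.exp 2 := by
    rw [sq, ← Real.exp_add]
    norm_num
  have hnk : ‖((√k : ℝ) : ℂ)‖ ^ 2 = k := by
    rw [Complex.norm_real, Real.norm_eq_abs, sq_abs, hkl]
  have hnl : ‖((√l : ℝ) : ℂ)‖ ^ 2 = l := by
    rw [Complex.norm_real, Real.norm_eq_abs, sq_abs, hll]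
  have hne : ‖((Real.exp 1 : ℝ) : ℂ)‖ ^ 2 = Real.exp 2 := by
    rw [Complex.norm_real, Real.norm_eq_abs, sq_abs, hee]
  refine peak3 (fun q : E n × E n => ((√k : ℝ) : ℂ) * ((Real.exp 1 : ℝ) : ℂ) * q.2.1)
    (fun q : E n × E n => (((√k : ℝ) : ℂ) * ((Real.exp 1 : ℝ) : ℂ) * ((√l : ℝ) : ℂ)) •
      (q.1.1 • q.2.2 + q.2.1 • q.1.2))
    (fun q : E n × E n => (((√k : ℝ) : ℂ) * ((√l : ℝ) : ℂ)) • q.2.2) ?_ ?_ ?_ ?_ ?_ ?_ ?_
  · exact Differentiable.differentiableOn (by fun_prop)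
  · exact Differentiable.differentiableOn (by fun_prop)
  · exact Differentiable.differentiableOn (by fun_prop)
  · exact Real.sqrt_pos.2 (h1_pos hl hk _ _ hv)
  · intro x _ v
    exact Real.sqrt_nonneg _
  · intro x _ v
    dsimp only
    rw [Real.sq_sqrt (h1_nn hl hk x v)]
    have h := key v.1 ((((√l : ℝ) : ℂ) * x.1) • v.2) (((√l : ℝ) : ℂ) • x.2)
    have e1 : ((((√l : ℝ) : ℂ) * x.1) • v.2) + v.1 • (((√l : ℝ) : ℂ) • x.2) =
        ((√l : ℝ) : ℂ) • (x.1 • v.2 + v.1 • x.2) := by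
      rw [smul_add, smul_smul, smul_smul, smul_smul, mul_comm v.1]
    have e2 : v.1 + inner ℂ (((√l : ℝ) : ℂ) • x.2) ((((√l : ℝ) : ℂ) * x.1) • v.2) = Dz l x v := by
      rw [inner_smul_left, inner_smul_right, Complex.conj_ofReal, Dz]
      have : ((l : ℝ) : ℂ) = ((√l : ℝ) : ℂ) ^ 2 := by
        rw [← Complex.ofReal_pow, hll]
      rw [this]
      ring
    rw [e1, e2, norm_smul, norm_smul, norm_smul, norm_mul, mul_pow, mul_pow, mul_pow, mul_pow,
      hnl] at h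
    rw [norm_smul, norm_smul, norm_mul, norm_mul, norm_mul, norm_mul, norm_mul]
    simp only [mul_pow, hnk, hnl, hne]
    unfold h1
    have h5 := mul_le_mul_of_nonneg_left h (by positivity : 0 ≤ k * Real.exp 2)
    nlinarith [h5]
  · dsimp only
    rw [Real.sq_sqrt (h1_nn hl hk x₀ v₀)]
    have hD : Dz l x₀ v₀ = v₀.1 := by simp [Dz, hx]
    simp only [hx, smul_zero, add_zero, norm_smul, norm_mul, mul_pow, hnk, hnl, hne]
    unfold h1
    rw [hD, hx]
    simp only [norm_zero, ne_eq, OfNat.ofNat_ne_zero, not_false_eq_true, zero_pow, mul_zero,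
      Real.exp_zero, one_mul]
    ring

theorem h1_loc {l k : ℝ} (hl : 0 < l) (hk : 0 < k) :
    LocNorm (fun x v : E n => √(h1 l k x v)) univ := by
  refine ⟨isOpen_univ, ?_, ?_, ?_, ?_⟩
  · exact (Real.continuous_sqrt.comp (h1_cont l k)).continuousOn
  · intro x _ v hv
    exact Real.sqrt_pos.2 (h1_pos hl hk x v hv)
  · intro x _ c v
    rw [h1_smul, Real.sqrt_mul (sq_nonneg _), Real.sqrt_sq (norm_nonneg _)]
  · intro x _ v hv
    have hz : (gL l x.2 x).2 = 0 := by simp [gL]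
    have hv' : gL' l x.2 (x, v) ≠ 0 := by
      intro h
      apply hv
      have h2 : v.2 = 0 := by
        have := congrArg Prod.snd h
        simpa [gL'] using this
      have h1 : v.1 = 0 := by
        have := congrArg Prod.fst h
        simpa [gL', h2, cc_ne] using this
      exact Prod.ext h1 h2
    refine PeakAt.pull (N := fun x v : E n => √(h1 l k x v)) (U := univ) (L := gL l x.2)
      (L' := gL' l x.2) (peak_zero hl hk _ _ hz hv') (gL_diff l x.2).differentiableOn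
      (gL'_diff l x.2).differentiableOn (fun _ _ => mem_univ _) (mem_univ _) ?_
    intro y _ u
    rw [gL_inv]

theorem h1_nonneg {l k : ℝ} (hl : 0 < l) (hk : 0 < k) (x v : E n) : 0 ≤ h1 l k x v := by
  unfold h1
  positivity

end Pool.Agent.Nef6.CC
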