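import Pool.Agent.H.MP_6a1d6a_ag.CC.Hyp

/-!
MP_6a1d6a_ag/CC, module Cyl2: the cusp coordinates `(z, w)`, `z = e^{ilτ/2}`.

* `nq_ex`: `|e^{ilτ/2}|² = e^{-l Im τ}`.
* `hz_ex`: `Dz l (ex l x) (ex' l x v) = (i l / 2) e^{ilτ/2} (v.1 - 2 i ⟨v.2, w⟩)`, `qz l (ex l x) = l ht x / 2`.
* `ex_surj`: a logarithm of `z`.
* `hz_loc`: near `x₀ = (z₀, w₀)`, `z₀ ≠ 0`, take `U = {x | |z - z₀| < |z₀|, nq l x < 1}` and
  `L (z, w) = (τ₀ + (2/(i l)) Log (z/z₀), w)` (`ex l (τ₀, w) = (z₀, w)`), `L' (x, v) = ((2/(i l)) v.1 / x.1, v.2)`: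
  `ex l (L x) = x`, `ex' l (L x) (L' (x, v)) = v`; so `hz l x v = hyp (L x) (L' (x, v))` and `LocNorm.pull` of `hyp_loc`
  applies (`L x ∈ Sg n` as `nq < 1`).
-/

set_option autoImplicit false

open Set Filter Topology Metric
open scoped ContDiff Manifold

namespace Pool.Agent.Nef6.CC

variable {n : ℕ}

private theorem Cyl2_has (l : ℝ) (x : E n) :
    HasFDerivAt (ex l : E n → E n)
      ((Complex.exp (Complex.I * l / 2 * x.1) •
        ((Complex.I * l / 2 : ℂ) • ContinuousLinearMap.fst ℂ ℂ (EuclideanSpace ℂ (Fin n)))).prod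
        (ContinuousLinearMap.snd ℂ ℂ (EuclideanSpace ℂ (Fin n)))) x := by
  have h1 : HasFDerivAt (fun x : E n => Complex.I * l / 2 * x.1)
      ((Complex.I * l / 2 : ℂ) • ContinuousLinearMap.fst ℂ ℂ (EuclideanSpace ℂ (Fin n))) x :=
    hasFDerivAt_fst.const_mul _
  exact h1.cexp.prodMk hasFDerivAt_snd

theorem ex_fderiv (l : ℝ) (x v : E n) : fderiv ℂ (ex l) x v = ex' l x v := by
  rw [(Cyl2_has l x).fderiv]
  unfold ex'
  ext
  · simp
    ring
  · simp

theorem ex_diff (l : ℝ) : Differentiable ℂ (ex l : E n → E n) := fun x =>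
  (Cyl2_has l x).differentiableAt

private theorem Cyl2_re (l : ℝ) (τ : ℂ) : (Complex.I * l / 2 * τ).re = -(l / 2 * τ.im) := by
  have h1 : Complex.I * l / 2 * τ = ((l / 2 : ℝ) : ℂ) * (Complex.I * τ) := by
    push_cast
    ring
  rw [h1, Complex.re_ofReal_mul, Complex.I_mul_re]
  ring

theorem nq_ex (l : ℝ) (x : E n) : nq l (ex l x) = Real.exp (-(l * ht x)) := by
  unfold nq ex ht
  simp only
  rw [Complex.norm_exp, Cyl2_re, ← Real.exp_nat_mul, ← Real.exp_add]
  congr 1
  push_cast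
  ring

theorem qz_ex (l : ℝ) (x : E n) : qz l (ex l x) = l * ht x / 2 := by
  unfold qz
  rw [nq_ex, Real.log_exp]
  ring

theorem hz_ex {l : ℝ} (hl : 0 < l) {x : E n} (hx : x ∈ Sg n) (v : E n) :
    hz l (ex l x) (ex' l x v) = hyp x v := by
  have hht : 0 < ht x := hx
  have hz0 : Complex.exp (Complex.I * l / 2 * x.1) ≠ 0 := Complex.exp_ne_zero _
  have h1 : Dz l (ex l x) (ex' l x v) = (Complex.I * l / 2) *
      Complex.exp (Complex.I * l / 2 * x.1) * (v.1 - 2 * Complex.I * inner ℂ x.2 v.2) := by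
    unfold Dz ex ex'
    simp only
    linear_combination ((l : ℂ) * Complex.exp (Complex.I * l / 2 * x.1) * inner ℂ x.2 v.2) *
      Complex.I_sq
  have h2 : ‖Dz l (ex l x) (ex' l x v)‖ ^ 2 = (l / 2) ^ 2 *
      ‖Complex.exp (Complex.I * l / 2 * x.1)‖ ^ 2 *
        ‖v.1 - 2 * Complex.I * inner ℂ x.2 v.2‖ ^ 2 := by
    rw [h1, norm_mul, norm_mul, mul_pow, mul_pow]
    congr 2
    rw [norm_div, norm_mul, Complex.norm_I, one_mul, Complex.norm_real, Real.norm_eq_abs,
      abs_of_pos hl]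
    norm_num
  unfold hz hyp
  rw [h2, qz_ex]
  have h3 : (ex l x).1 = Complex.exp (Complex.I * l / 2 * x.1) := rfl
  have h4 : (ex' l x v).2 = v.2 := rfl
  rw [h3, h4]
  have h5 : ‖Complex.exp (Complex.I * l / 2 * x.1)‖ ≠ 0 := norm_ne_zero_iff.2 hz0
  field_simp
  ring

private theorem Cyl2_il {l : ℝ} (hl : 0 < l) : Complex.I * (l : ℂ) ≠ 0 :=
  mul_ne_zero Complex.I_ne_zero (by exact_mod_cast hl.ne')

theorem ex_surj {l : ℝ} (hl : 0 < l) {x : E n} (hx : x.1 ≠ 0) :
    ∃ x' : E n, ex l x' = x ∧ l * ht x' / 2 = qz l x := by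
  have h0 := Cyl2_il hl
  have hlc : (l : ℂ) ≠ 0 := by exact_mod_cast hl.ne'
  have h1 : ex l ((2 / (Complex.I * l) * Complex.log x.1, x.2) : E n) = x := by
    unfold ex
    ext1
    · simp only
      have h2 : Complex.I * l / 2 * (2 / (Complex.I * l) * Complex.log x.1) = Complex.log x.1 := by
        field_simp
      rw [h2, Complex.exp_log hx]
    · rfl
  refine ⟨_, h1, ?_⟩
  rw [← qz_ex, h1]

theorem hz_loc {l : ℝ} (hl : 0 < l) {x : E n} (hx : x.1 ≠ 0) (h : nq l x < 1) :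
    ∃ U, x ∈ U ∧ (∀ x' ∈ U, x'.1 ≠ 0 ∧ nq l x' < 1) ∧ LocNorm (fun x v : E n => √(hz l x v)) U := by
  have h0 := Cyl2_il hl
  have hlc : (l : ℂ) ≠ 0 := by exact_mod_cast hl.ne'
  obtain ⟨U, hU⟩ : ∃ U : Set (E n), U = {x' | ‖x'.1 - x.1‖ < ‖x.1‖ ∧ nq l x' < 1} := ⟨_, rfl⟩
  have hUmem : ∀ x' ∈ U, x'.1 ≠ 0 ∧ nq l x' < 1 := by
    intro x' hx'
    rw [hU] at hx'
    refine ⟨?_, hx'.2⟩
    intro h1
    have h2 := hx'.1
    rw [h1, zero_sub, norm_neg] at h2
    exact lt_irrefl _ h2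
  have hUo : IsOpen U := by
    rw [hU]
    have h1 : Continuous (nq l : E n → ℝ) := by
      unfold nq
      fun_prop
    have h2 : Continuous fun x' : E n => ‖x'.1 - x.1‖ := by fun_prop
    exact (isOpen_lt h2 continuous_const).inter (isOpen_lt h1 continuous_const)
  have hslit : ∀ x' ∈ U, x'.1 / x.1 ∈ Complex.slitPlane := by
    intro x' hx'
    rw [hU] at hx'
    left
    have h1 : ‖x'.1 / x.1 - 1‖ < 1 := by
      have h2 : x'.1 / x.1 - 1 = (x'.1 - x.1) / x.1 := by field_simp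
      rw [h2, norm_div, div_lt_one (norm_pos_iff.2 hx)]
      exact hx'.1
    have h2 := Complex.abs_re_le_norm (x'.1 / x.1 - 1)
    rw [Complex.sub_re, Complex.one_re] at h2
    have h3 := (abs_lt.1 (h2.trans_lt h1)).1
    linarith
  obtain ⟨L, hL⟩ : ∃ L : E n → E n, L = fun x' => (2 / (Complex.I * l) * Complex.log x.1 +
    2 / (Complex.I * l) * Complex.log (x'.1 / x.1), x'.2) := ⟨_, rfl⟩
  obtain ⟨L', hL'⟩ : ∃ L' : E n × E n → E n, L' = fun q => (2 / (Complex.I * l) *
    (q.2.1 / q.1.1), q.2.2) := ⟨_, rfl⟩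
  have hexp : ∀ x' ∈ U, Complex.exp (Complex.I * l / 2 * (L x').1) = x'.1 := by
    intro x' hx'
    have h1 : Complex.I * l / 2 * (L x').1 = Complex.log x.1 + Complex.log (x'.1 / x.1) := by
      rw [hL]
      simp only
      field_simp
    rw [h1, Complex.exp_add, Complex.exp_log hx,
      Complex.exp_log (Complex.slitPlane_ne_zero (hslit x' hx'))]
    field_simp
  have hex : ∀ x' ∈ U, ex l (L x') = x' := by
    intro x' hx'
    unfold ex
    rw [hexp x' hx', hL]
  have hex' : ∀ x' ∈ U, ∀ v, ex' l (L x') (L' (x', v)) = v := by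
    intro x' hx' v
    have h1 := (hUmem x' hx').1
    unfold ex'
    rw [hexp x' hx', hL']
    ext1
    · simp only
      field_simp
    · rfl
  have hLm : MapsTo L U (Sg n) := by
    intro x' hx'
    have h1 := qz_ex l (L x')
    rw [hex x' hx'] at h1
    obtain ⟨h2, h3⟩ := hUmem x' hx'
    have h4 : 0 < nq l x' := by
      unfold nq
      have := norm_pos_iff.2 h2
      positivity
    have h5 : 0 < qz l x' := by
      unfold qz
      have := Real.log_neg h4 h3
      linarith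
    show 0 < ht (L x')
    rw [h1] at h5
    by_contra hcon
    have h6 : ht (L x') ≤ 0 := not_lt.1 hcon
    have h7 : l * ht (L x') ≤ 0 := mul_nonpos_of_nonneg_of_nonpos hl.le h6
    linarith
  refine ⟨U, ?_, hUmem, ?_⟩
  · rw [hU]
    refine ⟨?_, h⟩
    rw [sub_self, norm_zero]
    exact norm_pos_iff.2 hx
  · refine LocNorm.pull (N := fun x v : E n => √(hyp x v)) (U := Sg n) (L := L) (L' := L')
      hyp_loc hUo ?_ ?_ hLm ?_ ?_ ?_
    · rw [hL]
      intro x' hx'
      refine DifferentiableAt.differentiableWithinAt ?_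
      refine DifferentiableAt.prodMk ?_ differentiableAt_snd
      refine DifferentiableAt.const_add _ ?_
      refine DifferentiableAt.const_mul ?_ _
      refine DifferentiableAt.clog ?_ (hslit x' hx')
      fun_prop
    · rw [hL']
      rintro ⟨x', v⟩ ⟨hx', -⟩
      have h1 := (hUmem x' hx').1
      refine DifferentiableAt.differentiableWithinAt ?_
      refine DifferentiableAt.prodMk ?_ (by fun_prop)
      refine DifferentiableAt.const_mul ?_ _
      have h2 : (fun q : E n × E n => q.2.1 / q.1.1) = fun q => q.2.1 * (q.1.1)⁻¹ := by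
        funext q
        rw [div_eq_mul_inv]
      rw [h2]
      exact DifferentiableAt.mul (by fun_prop) (DifferentiableAt.inv (by fun_prop) h1)
    · intro x' hx' v
      show √(hz l x' v) = √(hyp (L x') (L' (x', v)))
      rw [← hz_ex hl (hLm hx'), hex x' hx', hex' x' hx']
    · intro x' _ c v
      rw [hL']
      ext1
      · simp only [Prod.smul_fst, smul_eq_mul]
        ring
      · rfl
    · intro x' hx' v hv h1
      apply hv
      rw [← hex' x' hx' v, h1]
      unfold ex'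
      ext1
      · simp
      · simp

theorem nq_cont (l : ℝ) : Continuous (nq l : E n → ℝ) := by
  unfold nq
  fun_prop

end Pool.Agent.Nef6.CC
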