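import Pool.Agent.H.MP_6a1d6a_ag.CC.Base

/-!
MP_6a1d6a_ag, cusp closing: auxiliary definitions for the proof.
-/

set_option autoImplicit false

open Set Filter Topology Metric
open scoped ContDiff Manifold

namespace Pool.Agent.Nef6.CC

/-- `φ` is a holomorphic chart of `Y`, locally inverse to `ψ` on `M`. -/
def Inv {V Y : Type} [NormedAddCommGroup V] [NormedSpace ℂ V] [TopologicalSpace Y] [ChartedSpace V Y]
    (M : Set V) (ψ : V → Y) (φ : OpenPartialHomeomorph Y V) : Prop :=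
  φ ∈ Charts V Y ∧ φ.target ⊆ M ∧ ∀ x ∈ φ.target, ψ x = φ.symm x

section norms

variable {V : Type} [NormedAddCommGroup V] [NormedSpace ℂ V]

/-- `N` is at `(x₀, v₀)` the modulus of a holomorphic function which is `≤ N` on `U`. -/
def PeakAt (N : V → V → ℝ) (U : Set V) (x₀ v₀ : V) : Prop :=
  ∃ θ : V × V → ℂ, DifferentiableOn ℂ θ (U ×ˢ univ) ∧ (∀ x ∈ U, ∀ v, ‖θ (x, v)‖ ≤ N x v) ∧
    ‖θ (x₀, v₀)‖ = N x₀ v₀

/-- A continuous Finsler norm on `U` with plurisubharmonic logarithm (in the form `PeakAt`). -/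
structure LocNorm (N : V → V → ℝ) (U : Set V) : Prop where
  op : IsOpen U
  cont : ContinuousOn (fun q : V × V => N q.1 q.2) (U ×ˢ univ)
  pos : ∀ x ∈ U, ∀ v, v ≠ 0 → 0 < N x v
  hom : ∀ x ∈ U, ∀ (c : ℂ) (v : V), N x (c • v) = ‖c‖ * N x v
  peak : ∀ x ∈ U, ∀ v, v ≠ 0 → PeakAt N U x v

end norms

section cusp

variable {n : ℕ}

/-- `|z|² e^{l|w|²}` -/
noncomputable def nq (l : ℝ) (x : E n) : ℝ := ‖x.1‖ ^ 2 * Real.exp (l * ‖x.2‖ ^ 2)

/-- `q = - log (|z|² e^{l|w|²}) / 2` -/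
noncomputable def qz (l : ℝ) (x : E n) : ℝ := -Real.log (nq l x) / 2

/-- `v_z + l z ⟨v_w, w⟩` -/
noncomputable def Dz (l : ℝ) (x v : E n) : ℂ := v.1 + l * x.1 * inner ℂ x.2 v.2

/-- The complex hyperbolic metric in the coordinates `(z, w)`. -/
noncomputable def hz (l : ℝ) (x v : E n) : ℝ :=
  ‖Dz l x v‖ ^ 2 / (‖x.1‖ ^ 2 * qz l x ^ 2) + 2 * l * ‖v.2‖ ^ 2 / qz l x

/-- The metric near `z = 0`. -/
noncomputable def h1 (l k : ℝ) (x v : E n) : ℝ :=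
  k * (Real.exp 2 * (Real.exp (l * ‖x.2‖ ^ 2) * (‖Dz l x v‖ ^ 2 + l * ‖x.1‖ ^ 2 * ‖v.2‖ ^ 2)) +
    l * ‖v.2‖ ^ 2)

/-- The map `(τ, w) ↦ (e^{ilτ/2}, w)` and its derivative. -/
noncomputable def ex (l : ℝ) (x : E n) : E n := (Complex.exp (Complex.I * l / 2 * x.1), x.2)

noncomputable def ex' (l : ℝ) (x v : E n) : E n :=
  (Complex.I * l / 2 * Complex.exp (Complex.I * l / 2 * x.1) * v.1, v.2)

/-- The glued norm. -/
noncomputable def Nz (l k : ℝ) (x v : E n) : ℝ :=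
  if Real.exp (-2) < nq l x then √(max (hz l x v) (h1 l k x v)) else √(h1 l k x v)

end cusp

end Pool.Agent.Nef6.CC
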