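import Pool.Agent.H.MP_6a1d6a_ag.CC.Def

/-!
MP_6a1d6a_ag/CC, module Num: the two factors `q² e^{2-2q}` and `(q/2)(e^{2-2q} + 1)`.

`num_in`: both are continuous and 1 at `q = 1`. `num_out`: both are nondecreasing on `(0, 1]` and `< 1` at `q₁ < 1`
(`q² e^{2-2q} = (q e^{1-q})²`, `q < e^{q-1}`; the derivative of `(q/2)(e^{2-2q} + 1)` is `(1 + (1 - 2q) e^{2-2q})/2`, which is `> 0` for
`0 < q < 1`: with `t = 2 - 2q`, `1 + (t - 1) e^t > 0` as `e^{-t} > 1 - t`). Take `k = min` of the inverses at `q₁`.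
-/

set_option autoImplicit false

open Set Filter Topology Metric

namespace Pool.Agent.Nef6.CC

theorem num_in {k : ℝ} (hk : 1 < k) : ∃ q₂, 0 < q₂ ∧ q₂ < 1 ∧ ∀ q, q₂ ≤ q → q ≤ 1 →
    1 ≤ k * (q ^ 2 * Real.exp (2 - 2 * q)) ∧ 1 ≤ k * (q / 2 * (Real.exp (2 - 2 * q) + 1)) := by
  have c1 : Continuous fun q : ℝ => k * (q ^ 2 * Real.exp (2 - 2 * q)) := by fun_prop
  have c2 : Continuous fun q : ℝ => k * (q / 2 * (Real.exp (2 - 2 * q) + 1)) := by fun_prop
  have e1 : ∀ᶠ q in 𝓝 (1 : ℝ), 1 < k * (q ^ 2 * Real.exp (2 - 2 * q)) := by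
    refine c1.continuousAt.eventually (lt_mem_nhds ?_)
    norm_num
    exact hk
  have e2 : ∀ᶠ q in 𝓝 (1 : ℝ), 1 < k * (q / 2 * (Real.exp (2 - 2 * q) + 1)) := by
    refine c2.continuousAt.eventually (lt_mem_nhds ?_)
    norm_num
    exact hk
  obtain ⟨ε, hε, hb⟩ := Metric.eventually_nhds_iff.1 (e1.and e2)
  refine ⟨max (1 / 2) (1 - ε / 2), lt_of_lt_of_le (by norm_num) (le_max_left _ _),
    max_lt (by norm_num) (by linarith), fun q hq hq1 => ?_⟩
  have h2 : 1 - ε / 2 ≤ q := le_trans (le_max_right _ _) hq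
  have := hb (y := q) (by
    rw [Real.dist_eq, abs_lt]
    constructor <;> linarith)
  exact ⟨this.1.le, this.2.le⟩

private lemma num_anti : StrictAntiOn (fun t : ℝ => (1 - t / 2) * (Real.exp t + 1)) (Ici 0) := by
  refine strictAntiOn_of_deriv_neg (convex_Ici 0) (by fun_prop) fun t ht => ?_
  rw [interior_Ici] at ht
  have ht' : 0 < t := ht
  have hd : HasDerivAt (fun t : ℝ => (1 - t / 2) * (Real.exp t + 1))
      ((0 - 1 / 2) * (Real.exp t + 1) + (1 - t / 2) * (Real.exp t + 0)) t := by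
    refine HasDerivAt.mul ?_ ?_
    · exact (hasDerivAt_const t (1 : ℝ)).sub ((hasDerivAt_id t).div_const 2)
    · exact (Real.hasDerivAt_exp t).add (hasDerivAt_const t (1 : ℝ))
  rw [hd.deriv]
  have h1 : -t + 1 < Real.exp (-t) := Real.add_one_lt_exp (by linarith)
  have h2 : (-t + 1) * Real.exp t < Real.exp (-t) * Real.exp t :=
    mul_lt_mul_of_pos_right h1 (Real.exp_pos t)
  rw [← Real.exp_add] at h2
  norm_num at h2
  nlinarith

theorem num_out {q₁ : ℝ} (h0 : 0 < q₁) (h1 : q₁ < 1) : ∃ k, 1 < k ∧ ∀ q, 0 < q → q ≤ q₁ →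
    k * (q ^ 2 * Real.exp (2 - 2 * q)) ≤ 1 ∧ k * (q / 2 * (Real.exp (2 - 2 * q) + 1)) ≤ 1 := by
  -- the first factor
  have hsq : ∀ q : ℝ, q ^ 2 * Real.exp (2 - 2 * q) = (q * Real.exp (1 - q)) ^ 2 := by
    intro q
    rw [mul_pow, ← Real.exp_nat_mul]
    congr 2
    push_cast
    ring
  have hA1 : q₁ * Real.exp (1 - q₁) < 1 := by
    have h := Real.add_one_lt_exp (x := q₁ - 1) (by linarith)
    have h' : q₁ < Real.exp (q₁ - 1) := by linarith
    have h2 := mul_lt_mul_of_pos_right h' (Real.exp_pos (1 - q₁))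
    rw [← Real.exp_add] at h2
    norm_num at h2
    exact h2
  have hA0 : 0 < q₁ * Real.exp (1 - q₁) := mul_pos h0 (Real.exp_pos _)
  have hA : ∀ q, 0 < q → q ≤ q₁ → q * Real.exp (1 - q) ≤ q₁ * Real.exp (1 - q₁) := by
    intro q hq hqq
    have h := Real.add_one_le_exp (q - q₁)
    have h2 : q ≤ q₁ * Real.exp (q - q₁) := by nlinarith
    have h3 := mul_le_mul_of_nonneg_right h2 (Real.exp_pos (1 - q)).le
    rw [mul_assoc, ← Real.exp_add] at h3
    have : q - q₁ + (1 - q) = 1 - q₁ := by ring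
    rwa [this] at h3
  -- the second factor
  have hB : ∀ q, 0 < q → q ≤ q₁ → q / 2 * (Real.exp (2 - 2 * q) + 1) ≤
      q₁ / 2 * (Real.exp (2 - 2 * q₁) + 1) := by
    intro q hq hqq
    have h := num_anti.antitoneOn (a := 2 - 2 * q₁) (b := 2 - 2 * q) (by simp; linarith) (by simp; linarith)
      (by linarith)
    have e1 : 1 - (2 - 2 * q) / 2 = q := by ring
    have e2 : 1 - (2 - 2 * q₁) / 2 = q₁ := by ring
    beta_reduce at h
    rw [e1, e2] at h
    linarith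
  have hB1 : q₁ / 2 * (Real.exp (2 - 2 * q₁) + 1) < 1 := by
    have h := num_anti (a := 0) (b := 2 - 2 * q₁) (by simp) (by simp; linarith) (by linarith)
    simp only at h
    have e2 : 1 - (2 - 2 * q₁) / 2 = q₁ := by ring
    rw [e2] at h
    norm_num at h
    linarith
  have hB0 : 0 < q₁ / 2 * (Real.exp (2 - 2 * q₁) + 1) := by positivity
  refine ⟨min (1 / (q₁ * Real.exp (1 - q₁)) ^ 2) (1 / (q₁ / 2 * (Real.exp (2 - 2 * q₁) + 1))), ?_, ?_⟩
  · refine lt_min ?_ ?_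
    · rw [lt_div_iff₀ (by positivity)]
      nlinarith
    · rw [lt_div_iff₀ hB0]
      linarith
  · intro q hq hqq
    have hq0 : 0 < q * Real.exp (1 - q) := mul_pos hq (Real.exp_pos _)
    constructor
    · rw [hsq]
      calc _ ≤ 1 / (q₁ * Real.exp (1 - q₁)) ^ 2 * (q * Real.exp (1 - q)) ^ 2 :=
            mul_le_mul_of_nonneg_right (min_le_left _ _) (by positivity)
        _ ≤ 1 / (q₁ * Real.exp (1 - q₁)) ^ 2 * (q₁ * Real.exp (1 - q₁)) ^ 2 :=
            mul_le_mul_of_nonneg_left (pow_le_pow_left₀ hq0.le (hA q hq hqq) 2) (by positivity)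
        _ = 1 := by field_simp
    · calc _ ≤ 1 / (q₁ / 2 * (Real.exp (2 - 2 * q₁) + 1)) * (q / 2 * (Real.exp (2 - 2 * q) + 1)) :=
            mul_le_mul_of_nonneg_right (min_le_right _ _) (by positivity)
        _ ≤ 1 / (q₁ / 2 * (Real.exp (2 - 2 * q₁) + 1)) * (q₁ / 2 * (Real.exp (2 - 2 * q₁) + 1)) :=
            mul_le_mul_of_nonneg_left (hB q hq hqq) (by positivity)
        _ = 1 := by field_simp

end Pool.Agent.Nef6.CC
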