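import Pool.Agent.H.MP_6a1d6a_ag.CC.Cyl1
import Pool.Agent.H.MP_6a1d6a_ag.CC.Cyl2
import Pool.Agent.H.MP_6a1d6a_ag.CC.Num

/-!
MP_6a1d6a_ag/CC, module Glue: the glued norm `Nz`.

For `x.1 ≠ 0`, `q = qz l x`, `nq l x = e^{-2q}`, `e^{l|w|²} |z|² = e^{-2q}`:
`h1 l k x v = k (e^{2-2q} (|Dz|²/|z|² + l |v.2|²) + l |v.2|²)`, `hz l x v = |Dz|²/(|z|² q²) + 2 l |v.2|²/q`; so
`h1 = k q² e^{2-2q} · |Dz|²/(|z|² q²) + k (q/2)(e^{2-2q} + 1) · 2 l |v.2|²/q`.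
* `Nz_out`: both factors `≤ 1`: `h1 ≤ hz`; as `q ≤ q₁ < 1`, `nq > e^{-2}`.
* `Nz_loc`: if `nq l x > e^{-2}`: `U = W ∩ U' ∩ {nq > e^{-2}}`, `U'` from `hz_loc`, `LocNorm.max`, `√ max = max √`. If
  `nq l x ≤ e^{-2}`: `q₂` from `num_in`, `U = W ∩ {nq < e^{-2 q₂}}`; there `Nz = √ h1`: if `nq > e^{-2}` then
  `q₂ ≤ q ≤ 1` and `h1 ≥ hz`. `LocNorm.congr` of `h1_loc`.
-/

set_option autoImplicit false

open Set Filter Topology Metric
open scoped ContDiff Manifold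

namespace Pool.Agent.Nef6.CC

variable {n : ℕ}

private theorem Glue_nq_pos {l : ℝ} {x : E n} (hx : x.1 ≠ 0) : 0 < nq l x := by
  unfold nq
  have := norm_pos_iff.mpr hx
  positivity

private theorem Glue_nq_zero {l : ℝ} {x : E n} (hx : x.1 = 0) : nq l x = 0 := by
  simp [nq, hx]

private theorem Glue_nq_exp {l : ℝ} {x : E n} (hx : x.1 ≠ 0) :
    nq l x = Real.exp (-(2 * qz l x)) := by
  have h := Glue_nq_pos (l := l) hx
  unfold qz
  rw [show -(2 * (-Real.log (nq l x) / 2)) = Real.log (nq l x) by ring, Real.exp_log h]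

private theorem Glue_form {l k : ℝ} {x : E n} (hx : x.1 ≠ 0) (h0 : 0 < qz l x) (v : E n) :
    h1 l k x v = k * (qz l x ^ 2 * Real.exp (2 - 2 * qz l x)) *
      (‖Dz l x v‖ ^ 2 / (‖x.1‖ ^ 2 * qz l x ^ 2)) +
      k * (qz l x / 2 * (Real.exp (2 - 2 * qz l x) + 1)) * (2 * l * ‖v.2‖ ^ 2 / qz l x) := by
  have hr : 0 < ‖x.1‖ := norm_pos_iff.mpr hx
  have h2 := Glue_nq_exp (l := l) hx
  have h3 : Real.exp 2 * nq l x = Real.exp (2 - 2 * qz l x) := by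
    rw [h2, ← Real.exp_add]
    congr 1
  rw [← h3]
  unfold nq h1
  have hq := h0.ne'
  field_simp
  ring

private theorem Glue_le {l k : ℝ} (hl : 0 < l) {x : E n} (hx : x.1 ≠ 0) (h0 : 0 < qz l x)
    (hA : k * (qz l x ^ 2 * Real.exp (2 - 2 * qz l x)) ≤ 1)
    (hB : k * (qz l x / 2 * (Real.exp (2 - 2 * qz l x) + 1)) ≤ 1) (v : E n) :
    h1 l k x v ≤ hz l x v := by
  rw [Glue_form hx h0 v]
  unfold hz
  have e1 : 0 ≤ ‖Dz l x v‖ ^ 2 / (‖x.1‖ ^ 2 * qz l x ^ 2) := by positivity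
  have e2 : 0 ≤ 2 * l * ‖v.2‖ ^ 2 / qz l x := by positivity
  exact add_le_add (mul_le_of_le_one_left e1 hA) (mul_le_of_le_one_left e2 hB)

private theorem Glue_ge {l k : ℝ} (hl : 0 < l) {x : E n} (hx : x.1 ≠ 0) (h0 : 0 < qz l x)
    (hA : 1 ≤ k * (qz l x ^ 2 * Real.exp (2 - 2 * qz l x)))
    (hB : 1 ≤ k * (qz l x / 2 * (Real.exp (2 - 2 * qz l x) + 1))) (v : E n) :
    hz l x v ≤ h1 l k x v := by
  rw [Glue_form hx h0 v]
  unfold hz
  have e1 : 0 ≤ ‖Dz l x v‖ ^ 2 / (‖x.1‖ ^ 2 * qz l x ^ 2) := by positivity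
  have e2 : 0 ≤ 2 * l * ‖v.2‖ ^ 2 / qz l x := by positivity
  exact add_le_add (le_mul_of_one_le_left e1 hA) (le_mul_of_one_le_left e2 hB)

theorem Nz_out {l k q₁ : ℝ} (hl : 0 < l) (hq₁ : q₁ < 1)
    (h : ∀ q, 0 < q → q ≤ q₁ → k * (q ^ 2 * Real.exp (2 - 2 * q)) ≤ 1 ∧
      k * (q / 2 * (Real.exp (2 - 2 * q) + 1)) ≤ 1) {x : E n} (hx : x.1 ≠ 0)
    (h0 : 0 < qz l x) (h1 : qz l x ≤ q₁) (v : E n) : Nz l k x v = √(hz l x v) := by
  have hq := h (qz l x) h0 h1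
  have h2 : Real.exp (-2) < nq l x := by
    rw [Glue_nq_exp hx]
    exact Real.exp_lt_exp.mpr (by linarith)
  unfold Nz
  rw [if_pos h2, max_eq_left (Glue_le hl hx h0 hq.1 hq.2 v)]

theorem Nz_loc {l k : ℝ} (hl : 0 < l) (hk : 1 < k) {W : Set (E n)} (hW : IsOpen W)
    (hW1 : ∀ x ∈ W, nq l x < 1) {x : E n} (hx : x ∈ W) :
    ∃ U ⊆ W, x ∈ U ∧ LocNorm (Nz l k) U := by
  have hk0 : 0 < k := by linarith
  have hc := nq_cont (n := n) l
  by_cases hx2 : Real.exp (-2) < nq l x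
  · have hx1 : x.1 ≠ 0 := by
      intro h0
      rw [Glue_nq_zero h0] at hx2
      exact absurd hx2 (not_lt.mpr (Real.exp_pos _).le)
    obtain ⟨U', hxU, hU1, hU2⟩ := hz_loc hl hx1 (hW1 x hx)
    have hop : IsOpen (W ∩ U' ∩ {y | Real.exp (-2) < nq l y}) :=
      (hW.inter hU2.op).inter (isOpen_lt continuous_const hc)
    refine ⟨W ∩ U' ∩ {y | Real.exp (-2) < nq l y}, fun y hy => hy.1.1, ⟨⟨hx, hxU⟩, hx2⟩, ?_⟩
    have a1 : LocNorm (fun x v : E n => √(hz l x v)) (W ∩ U' ∩ {y | Real.exp (-2) < nq l y}) :=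
      hU2.congr hop (fun y hy => hy.1.2) (fun _ _ _ => rfl)
    have a2 : LocNorm (fun x v : E n => √(h1 l k x v)) (W ∩ U' ∩ {y | Real.exp (-2) < nq l y}) :=
      (h1_loc hl hk0).congr hop (Set.subset_univ _) (fun _ _ _ => rfl)
    refine (a1.max a2).congr hop subset_rfl fun y hy v => ?_
    have hy2 : Real.exp (-2) < nq l y := hy.2
    unfold Nz
    rw [if_pos hy2]
    rcases le_total (hz l y v) (h1 l k y v) with h3 | h3
    · rw [max_eq_right h3, max_eq_right (Real.sqrt_le_sqrt h3)]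
    · rw [max_eq_left h3, max_eq_left (Real.sqrt_le_sqrt h3)]
  · obtain ⟨q₂, hq0, hq1, hq⟩ := num_in hk
    have hop : IsOpen (W ∩ {y | nq l y < Real.exp (-(2 * q₂))}) :=
      hW.inter (isOpen_lt hc continuous_const)
    refine ⟨W ∩ {y | nq l y < Real.exp (-(2 * q₂))}, fun y hy => hy.1, ⟨hx, ?_⟩, ?_⟩
    · exact (not_lt.mp hx2).trans_lt (Real.exp_lt_exp.mpr (by linarith))
    · refine (h1_loc hl hk0).congr hop (Set.subset_univ _) fun y hy v => ?_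
      have hy2 : nq l y < Real.exp (-(2 * q₂)) := hy.2
      by_cases hy3 : Real.exp (-2) < nq l y
      · have hy1 : y.1 ≠ 0 := by
          intro h0
          rw [Glue_nq_zero h0] at hy3
          exact absurd hy3 (not_lt.mpr (Real.exp_pos _).le)
        unfold Nz
        rw [if_pos hy3]
        rw [Glue_nq_exp hy1] at hy2 hy3
        have b1 := Real.exp_lt_exp.mp hy2
        have b2 := Real.exp_lt_exp.mp hy3
        have b3 := hq (qz l y) (by linarith) (by linarith)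
        rw [max_eq_right (Glue_ge hl hy1 (by linarith) b3.1 b3.2 v)]
      · unfold Nz
        rw [if_neg hy3]

end Pool.Agent.Nef6.CC
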