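import Pool.Agent.H.MP_6a1d6a_ag.CC.Peak

/-!
MP_6a1d6a_ag/CC, module Hyp: the complex hyperbolic metric has a plurisubharmonic logarithm.

* `aff s η β (τ, w) = (s² τ + 2 i s ⟨w, η⟩ + β, s w + η)`, `Im β = ‖η‖²`, `s > 0`: `ht (aff x) = s² ht x`, the linear part
  `v ↦ (s² v.1 + 2 i s ⟨v.2, η⟩, s v.2)` multiplies `v.1 - 2 i ⟨v.2, x.2⟩` by `s²`; so `hyp` is invariant.
  (`⟨a, b⟩ = inner ℂ b a`.)
* For `x₀` in the domain take `s = 1 / √(ht x₀)`, `η = - s x₀.2`, `β = i - s² x₀.1 + 2 i s² ‖x₀.2‖²`: `aff x₀ = (i, 0)`.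
* Peak at `o = (i, 0)`: for `x = (τ, w)`, `δ = τ + i` (≠ 0 on the domain), `u = δ v.2 - v.1 w`,
  `P (x, v) = 4 v.1 / δ²`, `Q (x, v) = 4 u / δ²`. Identity, with `Z = (conj τ + i) v.1 - 2 i ⟨u, w⟩`, `ρ = ht x`:
  `|(δ - 2 i |w|²) v.1 - 2 i ⟨u, w⟩|² + 4 ρ |u + v.1 w|² = 4 ρ (|v.1|² + |u|²) + |Z|²`
  [`δ - 2i|w|² = conj τ + i + 2 i ρ`, expand]. The left side is `|δ|² (|v.1 - 2i⟨v.2, w⟩|² + 4 ρ |v.2|²)`, as
  `v.2 = (u + v.1 w)/δ`. So `hyp x v = (4 ρ (|v.1|² + |u|²) + |Z|²) / (ρ² |δ|²) ≥ 4 (|v.1|² + |u|²)/(ρ |δ|²) ≥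
  16 (|v.1|² + |u|²)/|δ|⁴ = ‖P‖² + ‖Q‖²`, because `|δ|² = |τ - i|² + 4 Im τ ≥ 4 ρ`. At `x = o`: `δ = 2 i`, `w = 0`,
  `‖P‖² + ‖Q‖² = |v.1|² + 4 |v.2|² = hyp o v`. Use `peak3` with `R = 0`.
* General peak: `PeakAt.pull` with `L = aff`, `L' (x, v) = ` the linear part.
* `cont`, `pos` (if `v.2 = 0` then the first term is `|v.1|²/ρ²`), `hom`: elementary.
-/

set_option autoImplicit false

open Set Filter Topology Metric
open scoped ContDiff Manifold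

namespace Pool.Agent.Nef6.CC

variable {n : ℕ}

theorem sg_open : IsOpen (Sg n) := by
  have h : Continuous fun x : E n => ht x := by
    unfold ht
    fun_prop
  exact isOpen_lt continuous_const h

private theorem Hyp_id (τ a s : ℂ) (W U : ℝ) :
    ‖(τ + Complex.I - 2 * Complex.I * W) * a - 2 * Complex.I * s‖ ^ 2 +
        4 * (τ.im - W) * (U + 2 * (a * (starRingEnd ℂ) s).re + ‖a‖ ^ 2 * W) =
      4 * (τ.im - W) * (‖a‖ ^ 2 + U) +
        ‖((starRingEnd ℂ) τ + Complex.I) * a - 2 * Complex.I * s‖ ^ 2 := by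
  simp only [Complex.sq_norm, Complex.normSq_apply, Complex.mul_re, Complex.mul_im, Complex.add_re,
    Complex.add_im, Complex.sub_re, Complex.sub_im, Complex.conj_re, Complex.conj_im,
    Complex.I_re, Complex.I_im, Complex.ofReal_re, Complex.ofReal_im, Complex.re_ofNat,
    Complex.im_ofNat]
  ring

private theorem Hyp_eq {x : E n} (hx : x ∈ Sg n) (v : E n) :
    hyp x v = (‖v.1 - 2 * Complex.I * inner ℂ x.2 v.2‖ ^ 2 + 4 * ht x * ‖v.2‖ ^ 2) / ht x ^ 2 := by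
  have h : 0 < ht x := hx
  unfold hyp
  field_simp

private theorem Hyp_key {x : E n} (hx : x ∈ Sg n) (v : E n) :
    4 * ht x * (‖v.1‖ ^ 2 + ‖(x.1 + Complex.I) • v.2 - v.1 • x.2‖ ^ 2) ≤
      ‖x.1 + Complex.I‖ ^ 2 *
        (‖v.1 - 2 * Complex.I * inner ℂ x.2 v.2‖ ^ 2 + 4 * ht x * ‖v.2‖ ^ 2) := by
  have h : 0 < ht x := hx
  obtain ⟨u, hu⟩ : ∃ u, u = (x.1 + Complex.I) • v.2 - v.1 • x.2 := ⟨_, rfl⟩
  have hδ : (x.1 + Complex.I) • v.2 = u + v.1 • x.2 := by rw [hu]; abel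
  rw [← hu]
  have h1 : ‖x.1 + Complex.I‖ ^ 2 * ‖v.1 - 2 * Complex.I * inner ℂ x.2 v.2‖ ^ 2 =
      ‖(x.1 + Complex.I - 2 * Complex.I * ((‖x.2‖ ^ 2 : ℝ) : ℂ)) * v.1 -
        2 * Complex.I * inner ℂ x.2 u‖ ^ 2 := by
    rw [← mul_pow, ← norm_mul]
    congr 2
    have h2 : (x.1 + Complex.I) * inner ℂ x.2 v.2 = inner ℂ x.2 u + v.1 * ((‖x.2‖ ^ 2 : ℝ) : ℂ) := by
      rw [← inner_smul_right, hδ, inner_add_right, inner_smul_right, inner_self_eq_norm_sq_to_K]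
      push_cast
      rfl
    linear_combination (-2 * Complex.I) * h2
  have h3 : ‖x.1 + Complex.I‖ ^ 2 * ‖v.2‖ ^ 2 = ‖u‖ ^ 2 +
      2 * (v.1 * (starRingEnd ℂ) (inner ℂ x.2 u)).re + ‖v.1‖ ^ 2 * ‖x.2‖ ^ 2 := by
    rw [← mul_pow, ← norm_smul, hδ, norm_add_sq (𝕜 := ℂ), inner_smul_right, inner_conj_symm,
      norm_smul, mul_pow]
    rfl
  have h4 := Hyp_id x.1 v.1 (inner ℂ x.2 u) (‖x.2‖ ^ 2) (‖u‖ ^ 2)
  have h5 : x.1.im - ‖x.2‖ ^ 2 = ht x := rfl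
  rw [h5, ← h1, ← h3] at h4
  have h6 : ‖x.1 + Complex.I‖ ^ 2 *
      (‖v.1 - 2 * Complex.I * inner ℂ x.2 v.2‖ ^ 2 + 4 * ht x * ‖v.2‖ ^ 2) =
      ‖x.1 + Complex.I‖ ^ 2 * ‖v.1 - 2 * Complex.I * inner ℂ x.2 v.2‖ ^ 2 +
        4 * ht x * (‖x.1 + Complex.I‖ ^ 2 * ‖v.2‖ ^ 2) := by ring
  rw [h6, h4]
  exact le_add_of_nonneg_right (sq_nonneg _)

private theorem Hyp_del {x : E n} (hx : x ∈ Sg n) : 4 * ht x ≤ ‖x.1 + Complex.I‖ ^ 2 := by
  have h : 0 < ht x := hx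
  have h1 : ht x ≤ x.1.im := by
    unfold ht
    linarith [sq_nonneg ‖x.2‖]
  have h2 : ‖x.1 + Complex.I‖ ^ 2 = x.1.re ^ 2 + (x.1.im + 1) ^ 2 := by
    rw [Complex.sq_norm, Complex.normSq_apply]
    simp only [Complex.add_re, Complex.add_im, Complex.I_re, Complex.I_im]
    ring
  rw [h2]
  nlinarith [sq_nonneg (x.1.im - 1), sq_nonneg x.1.re]

private theorem Hyp_ne {x : E n} (hx : x ∈ Sg n) : x.1 + Complex.I ≠ 0 := by
  intro h
  have h1 := Hyp_del hx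
  have h2 : 0 < ht x := hx
  rw [h, norm_zero] at h1
  linarith

private theorem Hyp_pos {x : E n} (hx : x ∈ Sg n) {v : E n} (hv : v ≠ 0) : 0 < hyp x v := by
  have h : 0 < ht x := hx
  rcases eq_or_ne v.2 0 with h2 | h2
  · have h1 : v.1 ≠ 0 := fun h1 => hv (Prod.ext h1 h2)
    unfold hyp
    rw [h2, inner_zero_right, mul_zero, sub_zero]
    have h3 : 0 < ‖v.1‖ := norm_pos_iff.2 h1
    positivity
  · unfold hyp
    have h3 : 0 < ‖v.2‖ := norm_pos_iff.2 h2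
    positivity

private theorem Hyp_inv : DifferentiableOn ℂ
    (fun q : E n × E n => ((q.1.1 + Complex.I) ^ 2)⁻¹) (Sg n ×ˢ (univ : Set (E n))) := by
  intro q hq
  have h : DifferentiableAt ℂ (fun q : E n × E n => (q.1.1 + Complex.I) ^ 2) q := by fun_prop
  exact (h.fun_inv (pow_ne_zero 2 (Hyp_ne hq.1))).differentiableWithinAt

/-- base point peak -/
theorem hyp_peak0 (v₀ : E n) (hv₀ : v₀ ≠ 0) :
    PeakAt (fun x v : E n => √(hyp x v)) (Sg n) (Complex.I, 0) v₀ := by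
  have ho : ((Complex.I, 0) : E n) ∈ Sg n := by
    change 0 < ht ((Complex.I, 0) : E n)
    simp [ht]
  refine peak3 (F := EuclideanSpace ℂ (Fin n)) (G := ℂ)
    (fun q => 4 * q.2.1 / (q.1.1 + Complex.I) ^ 2)
    (fun q => (4 / (q.1.1 + Complex.I) ^ 2) • ((q.1.1 + Complex.I) • q.2.2 - q.2.1 • q.1.2))
    (fun _ => 0) ?_ ?_ (differentiableOn_const _) (Real.sqrt_pos.2 (Hyp_pos ho hv₀))
    (fun x _ v => Real.sqrt_nonneg _) ?_ ?_
  · simp only [div_eq_mul_inv]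
    exact DifferentiableOn.fun_mul (by fun_prop) Hyp_inv
  · simp only [div_eq_mul_inv]
    exact DifferentiableOn.fun_smul (DifferentiableOn.fun_mul (by fun_prop) Hyp_inv) (by fun_prop)
  · intro x hx v
    have h : 0 < ht x := hx
    have h1 := Hyp_key hx v
    have h2 := Hyp_del hx
    have h3 : 0 < ‖x.1 + Complex.I‖ := norm_pos_iff.2 (Hyp_ne hx)
    have hn : 0 ≤ hyp x v := by
      unfold hyp
      positivity
    dsimp only
    rw [Real.sq_sqrt hn, Hyp_eq hx]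
    simp only [norm_div, norm_mul, norm_smul, norm_pow, Complex.norm_ofNat, norm_zero]
    obtain ⟨D, hD⟩ : ∃ D, D = ‖x.1 + Complex.I‖ := ⟨_, rfl⟩
    obtain ⟨X, hX⟩ : ∃ X, X = ‖v.1 - 2 * Complex.I * inner ℂ x.2 v.2‖ ^ 2 +
      4 * ht x * ‖v.2‖ ^ 2 := ⟨_, rfl⟩
    obtain ⟨U, hU⟩ : ∃ U, U = ‖(x.1 + Complex.I) • v.2 - v.1 • x.2‖ := ⟨_, rfl⟩
    rw [← hD, ← hU, ← hX] at h1
    rw [← hD] at h2 h3
    rw [← hD, ← hU, ← hX]
    have e : (4 * ‖v.1‖ / D ^ 2) ^ 2 + (4 / D ^ 2 * U) ^ 2 + 0 ^ 2 =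
        16 * (‖v.1‖ ^ 2 + U ^ 2) / D ^ 4 := by
      field_simp
      ring
    rw [e, div_le_div_iff₀ (by positivity) (by positivity)]
    have h4 : 0 ≤ ‖v.1‖ ^ 2 + U ^ 2 := by positivity
    calc 16 * (‖v.1‖ ^ 2 + U ^ 2) * ht x ^ 2
        = 4 * ht x * (4 * ht x * (‖v.1‖ ^ 2 + U ^ 2)) := by ring
      _ ≤ D ^ 2 * (D ^ 2 * X) := mul_le_mul h2 h1 (by positivity) (by positivity)
      _ = X * D ^ 4 := by ring
  · dsimp only
    have hn : 0 ≤ hyp ((Complex.I, 0) : E n) v₀ := (Hyp_pos ho hv₀).le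
    rw [Real.sq_sqrt hn, Hyp_eq ho]
    have e1 : ht ((Complex.I, 0) : E n) = 1 := by simp [ht]
    have e2 : Complex.I + Complex.I = 2 * Complex.I := by ring
    simp only [e1, e2, norm_div, norm_mul, norm_smul, norm_pow, Complex.norm_ofNat, norm_zero,
      smul_zero, sub_zero, inner_zero_left, mul_zero, Complex.norm_I]
    ring

theorem hyp_loc : LocNorm (fun x v : E n => √(hyp x v)) (Sg n) := by
  refine ⟨sg_open, ?_, fun x hx v hv => Real.sqrt_pos.2 (Hyp_pos hx hv), ?_, ?_⟩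
  · have hc : Continuous fun q : E n × E n => ht q.1 := by
      unfold ht
      fun_prop
    have hne : ∀ q ∈ Sg n ×ˢ (univ : Set (E n)), ht q.1 ≠ 0 := fun q hq => ne_of_gt hq.1
    unfold hyp
    refine ContinuousOn.sqrt (ContinuousOn.add (ContinuousOn.div ?_ (hc.pow 2).continuousOn
      fun q hq => pow_ne_zero 2 (hne q hq)) (ContinuousOn.div ?_ hc.continuousOn hne))
    · refine Continuous.continuousOn ?_
      have h1 : Continuous fun q : E n × E n => inner ℂ q.1.2 q.2.2 :=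
        Continuous.inner (by fun_prop) (by fun_prop)
      fun_prop
    · fun_prop
  · intro x hx c v
    have h : 0 < ht x := hx
    have h1 : hyp x (c • v) = ‖c‖ ^ 2 * hyp x v := by
      unfold hyp
      have e : (c • v).1 - 2 * Complex.I * inner ℂ x.2 (c • v).2 =
          c * (v.1 - 2 * Complex.I * inner ℂ x.2 v.2) := by
        rw [Prod.smul_fst, Prod.smul_snd, inner_smul_right, smul_eq_mul]
        ring
      rw [e, Prod.smul_snd, norm_mul, norm_smul]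
      ring
    change √(hyp x (c • v)) = ‖c‖ * √(hyp x v)
    rw [h1, Real.sqrt_mul (sq_nonneg _), Real.sqrt_sq (norm_nonneg _)]
  · intro x₀ hx₀ v₀ hv₀
    have h0 : 0 < ht x₀ := hx₀
    obtain ⟨s, hs0, hs⟩ : ∃ s : ℝ, 0 < s ∧ s ^ 2 * ht x₀ = 1 := by
      refine ⟨(√(ht x₀))⁻¹, by positivity, ?_⟩
      rw [inv_pow, Real.sq_sqrt h0.le]
      exact inv_mul_cancel₀ h0.ne'
    have hsc : (s : ℂ) ≠ 0 := by exact_mod_cast hs0.ne'
    obtain ⟨L, hL⟩ : ∃ L : E n → E n, L = fun x =>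
      (Complex.I + (s : ℂ) ^ 2 * (x.1 - x₀.1 - 2 * Complex.I * inner ℂ x₀.2 (x.2 - x₀.2)),
        (s : ℂ) • (x.2 - x₀.2)) := ⟨_, rfl⟩
    obtain ⟨L', hL'⟩ : ∃ L' : E n × E n → E n, L' = fun q =>
      ((s : ℂ) ^ 2 * (q.2.1 - 2 * Complex.I * inner ℂ x₀.2 q.2.2), (s : ℂ) • q.2.2) := ⟨_, rfl⟩
    have hht : ∀ x, ht (L x) = s ^ 2 * ht x := by
      intro x
      have e1 : ‖x.2‖ ^ 2 = ‖x₀.2‖ ^ 2 + 2 * (inner ℂ x₀.2 (x.2 - x₀.2)).re +
          ‖x.2 - x₀.2‖ ^ 2 := by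
        have h2 : x.2 = x₀.2 + (x.2 - x₀.2) := by abel
        conv_lhs => rw [h2]
        rw [norm_add_sq (𝕜 := ℂ)]
        rfl
      have e2 : ‖(s : ℂ) • (x.2 - x₀.2)‖ ^ 2 = s ^ 2 * ‖x.2 - x₀.2‖ ^ 2 := by
        rw [norm_smul, mul_pow, Complex.norm_real, Real.norm_eq_abs, sq_abs]
      rw [hL]
      unfold ht at hs ⊢
      dsimp only
      rw [e2, e1]
      have e3 : ((s : ℂ) ^ 2) = ((s ^ 2 : ℝ) : ℂ) := by push_cast; rfl
      rw [e3]
      simp only [Complex.add_im, Complex.ofReal_re, Complex.ofReal_im, Complex.sub_im, Complex.mul_im,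
        Complex.mul_re, Complex.I_im, Complex.I_re, Complex.re_ofNat, Complex.im_ofNat]
      linear_combination -hs
    have hhyp : ∀ x v, hyp x v = hyp (L x) (L' (x, v)) := by
      intro x v
      have e1 : (L' (x, v)).1 - 2 * Complex.I * inner ℂ (L x).2 (L' (x, v)).2 =
          ((s ^ 2 : ℝ) : ℂ) * (v.1 - 2 * Complex.I * inner ℂ x.2 v.2) := by
        rw [hL, hL']
        dsimp only
        rw [inner_smul_left, inner_smul_right, inner_sub_left, Complex.conj_ofReal]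
        push_cast
        ring
      have e2 : ‖(L' (x, v)).2‖ ^ 2 = s ^ 2 * ‖v.2‖ ^ 2 := by
        rw [hL']
        dsimp only
        rw [norm_smul, mul_pow, Complex.norm_real, Real.norm_eq_abs, sq_abs]
      unfold hyp
      rw [e1, e2, hht, norm_mul, Complex.norm_real, Real.norm_of_nonneg (sq_nonneg s)]
      by_cases hx : ht x = 0
      · rw [hx]
        simp
      · field_simp
    have hx1 : L x₀ = (Complex.I, 0) := by
      rw [hL]
      simp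
    have hv1 : L' (x₀, v₀) ≠ 0 := by
      intro h
      have h2 := hhyp x₀ v₀
      rw [h] at h2
      have h3 := Hyp_pos hx₀ hv₀
      rw [h2] at h3
      simp [hyp] at h3
    refine PeakAt.pull (N := fun x v : E n => √(hyp x v)) (U := Sg n) (L := L) (L' := L')
      ?_ ?_ ?_ ?_ hx₀ ?_
    · rw [hx1]
      exact hyp_peak0 _ hv1
    · rw [hL]
      have h1 : Differentiable ℂ fun x : E n => inner ℂ x₀.2 (x.2 - x₀.2) :=
        (innerSL ℂ x₀.2).differentiable.comp (by fun_prop)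
      fun_prop
    · rw [hL']
      have h1 : Differentiable ℂ fun q : E n × E n => inner ℂ x₀.2 q.2.2 :=
        (innerSL ℂ x₀.2).differentiable.comp (by fun_prop)
      fun_prop
    · intro x hx
      have h : 0 < ht x := hx
      change 0 < ht (L x)
      rw [hht]
      positivity
    · intro x _ v
      change √(hyp x v) = √(hyp (L x) (L' (x, v)))
      rw [← hhyp]

theorem hyp_nonneg {x : E n} (hx : x ∈ Sg n) (v : E n) : 0 ≤ hyp x v := by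
  have h : 0 < ht x := hx
  unfold hyp
  positivity

end Pool.Agent.Nef6.CC
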