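import Pool.Agent.H.MP_6a1d6a_ag.CC.Hyp

/-!
MP_6a1d6a_ag/CC, module Lip: the logarithm of the height is Lipschitz, uniformly for all isometries.

`ht` has the real derivative `v ↦ Im v.1 - 2 Re ⟨v.2, x.2⟩ = Im (v.1 - 2 i ⟨v.2, x.2⟩)`, so
`|D ht x v| ≤ ht x √(hyp x v)`. For a holomorphic isometry `B` and `f = log ∘ ht ∘ B`:
`|D f x v| ≤ √(hyp (B x) (DB v)) = √(hyp x v) ≤ C ‖v‖` for `x` in a closed ball about `x₀` in the domain (compactness:
`hyp` is continuous, quadratic in `v`; or an explicit bound). So `|f x - f x₀| ≤ C ‖x - x₀‖` on the ball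
(`Convex.norm_image_sub_le_of_norm_fderiv_le`, over ℝ), and `e^{C ‖x - x₀‖} ≤ c` on a smaller ball.
-/

set_option autoImplicit false

open Set Filter Topology Metric
open scoped ContDiff Manifold

namespace Pool.Agent.Nef6.CC

variable {n : ℕ}

/-- the real derivative of the height -/
private noncomputable def Lip_D (x : E n) : E n →L[ℝ] ℝ :=
  Complex.imCLM.comp (ContinuousLinearMap.fst ℝ ℂ (EuclideanSpace ℂ (Fin n))) -
    (2 : ℝ) • (Complex.reCLM.comp (((innerSL ℂ x.2).restrictScalars ℝ).comp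
      (ContinuousLinearMap.snd ℝ ℂ (EuclideanSpace ℂ (Fin n)))))

private theorem Lip_D_apply (x v : E n) :
    Lip_D x v = v.1.im - 2 * (inner ℂ x.2 v.2).re := by
  simp [Lip_D]

private theorem Lip_D_im (x v : E n) :
    Lip_D x v = (v.1 - 2 * Complex.I * inner ℂ x.2 v.2).im := by
  rw [Lip_D_apply]
  simp [Complex.mul_im, Complex.mul_re]

private theorem Lip_hasD (x : E n) : HasFDerivAt ht (Lip_D x) x := by
  rw [hasFDerivAt_iff_isLittleO_nhds_zero]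
  have h1 : ∀ h : E n, ht (x + h) - ht x - Lip_D x h = -‖h.2‖ ^ 2 := by
    intro h
    have h2 : ‖x.2 + h.2‖ ^ 2 = ‖x.2‖ ^ 2 + 2 * (inner ℂ x.2 h.2).re + ‖h.2‖ ^ 2 :=
      norm_add_sq (𝕜 := ℂ) x.2 h.2
    rw [Lip_D_apply]
    unfold ht
    rw [Prod.fst_add, Prod.snd_add, h2, Complex.add_im]
    ring
  simp only [h1]
  refine Asymptotics.IsBigO.trans_isLittleO ?_ (Asymptotics.isLittleO_norm_pow_id one_lt_two)
  refine Asymptotics.IsBigO.of_bound 1 (Filter.Eventually.of_forall fun h => ?_)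
  rw [norm_neg, norm_pow, norm_norm, norm_pow, norm_norm, one_mul]
  have := norm_snd_le h
  gcongr

private theorem Lip_D_le {x : E n} (hx : x ∈ Sg n) (v : E n) :
    |Lip_D x v| ≤ ht x * √(hyp x v) := by
  have h : 0 < ht x := hx
  rw [Lip_D_im]
  refine (Complex.abs_im_le_norm _).trans ?_
  have h1 : ‖v.1 - 2 * Complex.I * inner ℂ x.2 v.2‖ / ht x ≤ √(hyp x v) := by
    apply Real.le_sqrt_of_sq_le
    rw [div_pow]
    unfold hyp
    have : 0 ≤ 4 * ‖v.2‖ ^ 2 / ht x := by positivity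
    linarith
  rw [div_le_iff₀ h] at h1
  linarith

private theorem Lip_hyp_le {x : E n} {m R : ℝ} (hm : 0 < m) (hx : m ≤ ht x) (hR : ‖x.2‖ ≤ R) (v : E n) :
    √(hyp x v) ≤ √((1 + 2 * R) ^ 2 / m ^ 2 + 4 / m) * ‖v‖ := by
  have hR0 : 0 ≤ R := (norm_nonneg _).trans hR
  have hv1 : ‖v.1‖ ≤ ‖v‖ := norm_fst_le v
  have hv2 : ‖v.2‖ ≤ ‖v‖ := norm_snd_le v
  have h1 : ‖v.1 - 2 * Complex.I * inner ℂ x.2 v.2‖ ≤ (1 + 2 * R) * ‖v‖ := by
    refine (norm_sub_le _ _).trans ?_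
    have h2 : ‖2 * Complex.I * inner ℂ x.2 v.2‖ ≤ 2 * (R * ‖v‖) := by
      rw [norm_mul, norm_mul, Complex.norm_I, Complex.norm_ofNat, mul_one]
      have := norm_inner_le_norm (𝕜 := ℂ) x.2 v.2
      have h3 : ‖x.2‖ * ‖v.2‖ ≤ R * ‖v‖ := by gcongr
      linarith
    linarith
  have h0 : 0 < ht x := hm.trans_le hx
  have h3 : hyp x v ≤ ((1 + 2 * R) ^ 2 / m ^ 2 + 4 / m) * ‖v‖ ^ 2 := by
    unfold hyp
    have e1 : ‖v.1 - 2 * Complex.I * inner ℂ x.2 v.2‖ ^ 2 / ht x ^ 2 ≤ ((1 + 2 * R) * ‖v‖) ^ 2 / m ^ 2 := by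
      gcongr
    have e2 : 4 * ‖v.2‖ ^ 2 / ht x ≤ 4 * ‖v‖ ^ 2 / m := by gcongr
    have e3 : ((1 + 2 * R) ^ 2 / m ^ 2 + 4 / m) * ‖v‖ ^ 2
        = ((1 + 2 * R) * ‖v‖) ^ 2 / m ^ 2 + 4 * ‖v‖ ^ 2 / m := by ring
    rw [e3]
    exact add_le_add e1 e2
  refine (Real.sqrt_le_sqrt h3).trans ?_
  rw [Real.sqrt_mul (by positivity), Real.sqrt_sq (norm_nonneg _)]

theorem ht_lip {x₀ : E n} (hx₀ : x₀ ∈ Sg n) {c : ℝ} (hc : 1 < c) :
    ∃ U ∈ 𝓝 x₀, U ⊆ Sg n ∧ ∀ B : E n → E n, HolIsom B → ∀ x ∈ U, ht (B x) ≤ c * ht (B x₀) := by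
  have h0 : 0 < ht x₀ := hx₀
  have hcont : Continuous fun x : E n => ht x := by
    unfold ht
    fun_prop
  set m : ℝ := ht x₀ / 2 with hm
  have hm0 : 0 < m := by positivity
  set R : ℝ := ‖x₀‖ + 1 with hR
  set C : ℝ := √((1 + 2 * R) ^ 2 / m ^ 2 + 4 / m) with hC
  have hC0 : 0 ≤ C := Real.sqrt_nonneg _
  have hopen : {x : E n | m < ht x} ∈ 𝓝 x₀ :=
    (isOpen_lt continuous_const hcont).mem_nhds (by show m < ht x₀; rw [hm]; linarith)
  obtain ⟨r, hr0, hr⟩ := Metric.mem_nhds_iff.1 hopen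
  have hlog : 0 < Real.log c := Real.log_pos hc
  set δ : ℝ := min (min r 1) (Real.log c / (C + 1)) with hδ
  have hδ0 : 0 < δ := by
    rw [hδ]
    refine lt_min (lt_min hr0 one_pos) (by positivity)
  have hδr : δ ≤ r := (min_le_left _ _).trans (min_le_left _ _)
  have hδ1 : δ ≤ 1 := (min_le_left _ _).trans (min_le_right _ _)
  have hδc : C * δ ≤ Real.log c := by
    have : δ ≤ Real.log c / (C + 1) := min_le_right _ _
    rw [le_div_iff₀ (by positivity)] at this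
    nlinarith
  have hball : ∀ x ∈ ball x₀ δ, m ≤ ht x := fun x hx =>
    (hr (ball_subset_ball hδr hx) : m < ht x).le
  have hballS : ball x₀ δ ⊆ Sg n := fun x hx => hm0.trans_le (hball x hx)
  have hballR : ∀ x ∈ ball x₀ δ, ‖x.2‖ ≤ R := by
    intro x hx
    have h1 : ‖x - x₀‖ < 1 := by
      rw [mem_ball, dist_eq_norm] at hx
      linarith
    have h2 : ‖x‖ ≤ ‖x - x₀‖ + ‖x₀‖ := by
      have := norm_add_le (x - x₀) x₀
      simpa using this
    have h3 := norm_snd_le x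
    rw [hR]
    linarith
  refine ⟨ball x₀ δ, ball_mem_nhds _ hδ0, hballS, ?_⟩
  intro B hB x hx
  have hD : ∀ y ∈ ball x₀ δ, HasFDerivWithinAt (fun y => Real.log (ht (B y)))
      ((ht (B y))⁻¹ • ((Lip_D (B y)).comp ((fderiv ℂ B y).restrictScalars ℝ))) (ball x₀ δ) y := by
    intro y hy
    have hyS := hballS hy
    have hBy : ht (B y) ≠ 0 := (show 0 < ht (B y) from hB.maps hyS).ne'
    have h1 : HasFDerivAt B (fderiv ℂ B y) y :=
      ((hB.holo y hyS).differentiableAt (sg_open.mem_nhds hyS)).hasFDerivAt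
    have h2 : HasFDerivAt B ((fderiv ℂ B y).restrictScalars ℝ) y := h1.restrictScalars ℝ
    have h3 := (Lip_hasD (B y)).comp y h2
    exact (h3.log hBy).hasFDerivWithinAt
  have hbd : ∀ y ∈ ball x₀ δ,
      ‖(ht (B y))⁻¹ • ((Lip_D (B y)).comp ((fderiv ℂ B y).restrictScalars ℝ))‖ ≤ C := by
    intro y hy
    have hyS := hballS hy
    have hBS := hB.maps hyS
    have hBy : 0 < ht (B y) := hBS
    refine ContinuousLinearMap.opNorm_le_bound _ hC0 fun v => ?_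
    have e1 := Lip_D_le hBS (fderiv ℂ B y v)
    rw [hB.isom y hyS v] at e1
    have e2 := Lip_hyp_le hm0 (hball y hy) (hballR y hy) v
    have e3 : ((ht (B y))⁻¹ • ((Lip_D (B y)).comp ((fderiv ℂ B y).restrictScalars ℝ))) v
        = (ht (B y))⁻¹ * Lip_D (B y) (fderiv ℂ B y v) := rfl
    rw [e3, norm_mul, norm_inv, Real.norm_eq_abs, Real.norm_eq_abs, abs_of_pos hBy,
      inv_mul_le_iff₀ hBy]
    refine e1.trans ?_
    gcongr
  have key := Convex.norm_image_sub_le_of_norm_hasFDerivWithin_le hD hbd (convex_ball x₀ δ)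
    (mem_ball_self hδ0) hx
  have hBx : 0 < ht (B x) := hB.maps (hballS hx)
  have hBx₀ : 0 < ht (B x₀) := hB.maps hx₀
  have h5 : Real.log (ht (B x)) - Real.log (ht (B x₀)) ≤ Real.log c := by
    have h6 : ‖x - x₀‖ ≤ δ := by
      rw [← dist_eq_norm]
      exact (mem_ball.1 hx).le
    have h7 := (le_abs_self _).trans key
    exact h7.trans ((mul_le_mul_of_nonneg_left h6 hC0).trans hδc)
  have h8 : Real.log (ht (B x)) ≤ Real.log (c * ht (B x₀)) := by
    rw [Real.log_mul (by positivity) hBx₀.ne']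
    linarith
  exact (Real.log_le_log_iff hBx (by positivity)).1 h8

end Pool.Agent.Nef6.CC
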