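import Pool.Agent.H.MP_6a1d6a_ag.CC.Nef
import Pool.Agent.H.MP_6a1d6a_ag.CC.Comp
import Pool.Agent.H.MP_6a1d6a_ag.CC.Lip

/-!
MP_6a1d6a_ag/CC, module Main: the cotangent bundle of the compactification is nef.
-/

set_option autoImplicit false

open Set Filter Topology Metric
open scoped ContDiff Manifold

namespace Pool.Agent.Nef6.CC

variable {n : ℕ} {Y : Type} [TopologicalSpace Y] [ChartedSpace (E n) Y] [IsManifold 𝓘(ℂ, E n) ω Y]

theorem Main_cov (T : ℝ) (x : E n) : cov T x = ex (4 * Real.pi / T) x := by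
  unfold cov ex
  congr 2
  push_cast
  ring

theorem Main_comp {g g' : E n → E n} (h : HolIsom g) (h' : HolIsom g') :
    HolIsom fun x => g' (g x) where
  maps := fun x hx => h'.maps (h.maps hx)
  holo := h'.holo.comp h.holo h.maps
  isom := fun x hx v => by
    have h1 := (h.holo.differentiableAt (sg_open.mem_nhds hx)).hasFDerivAt
    have h2 := (h'.holo.differentiableAt (sg_open.mem_nhds (h.maps hx))).hasFDerivAt
    have h3 := (h2.comp x h1).fderiv
    have h4 : (g' ∘ g) = fun x => g' (g x) := rfl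
    rw [h4] at h3
    rw [h3]
    show hyp (g' (g x)) (fderiv ℂ g' (g x) (fderiv ℂ g x v)) = _
    rw [h'.isom _ (h.maps hx), h.isom _ hx]

theorem Main_restr {M M' : Set (E n)} {ψ : E n → Y} (hM' : IsOpen M') {x : E n} (hx : x ∈ M')
    {φ : OpenPartialHomeomorph Y (E n)} (h : Inv M ψ φ) (hxφ : x ∈ φ.target) (hsub : M' ⊆ M) :
    ∃ φ', Inv M' ψ φ' ∧ x ∈ φ'.target := by
  have ho : IsOpen (φ.source ∩ φ ⁻¹' M') := φ.isOpen_inter_preimage hM'
  refine ⟨φ.restrOpen _ ho, ⟨?_, ?_, ?_⟩, ?_⟩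
  · have h1 := restr_mem_maximalAtlas (G := contDiffGroupoid ω 𝓘(ℂ, E n)) h.1 ho
    have h2 : φ.restr (φ.source ∩ φ ⁻¹' M') = φ.restrOpen _ ho := by
      unfold OpenPartialHomeomorph.restr
      congr 1
      exact ho.interior_eq
    rw [← h2]
    exact h1
  · intro z hz
    have h1 : z ∈ φ.target ∩ φ.symm ⁻¹' (φ.source ∩ φ ⁻¹' M') := hz
    have h2 := h1.2.2
    rw [mem_preimage, φ.right_inv h1.1] at h2
    exact h2
  · intro z hz
    have h1 : z ∈ φ.target ∩ φ.symm ⁻¹' (φ.source ∩ φ ⁻¹' M') := hz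
    exact h.2.2 z h1.1
  · show x ∈ φ.target ∩ φ.symm ⁻¹' (φ.source ∩ φ ⁻¹' M')
    refine ⟨hxφ, φ.map_target hxφ, ?_⟩
    rw [mem_preimage, φ.right_inv hxφ]
    exact hx

theorem nef_cusp (X : CuspClosing n Y) : CotangentNef (E n) Y := by
  classical
  have hfin : Finite X.ι := X.fin
  have hTpos : ∀ i, 0 < X.T i := fun i =>
    lt_trans (by have := X.b_pos i; positivity) (X.deep i)
  set l : X.ι → ℝ := fun i => 4 * Real.pi / X.T i with hl
  have hlpos : ∀ i, 0 < l i := fun i => by have := hTpos i; positivity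
  set q0 : X.ι → ℝ := fun i => l i * X.b i / 2 with hq0
  have hq0pos : ∀ i, 0 < q0 i := fun i => by
    have := hlpos i
    have := X.b_pos i
    positivity
  have hq0lt : ∀ i, q0 i < 1 := by
    intro i
    have h1 := X.deep i
    have h2 := hTpos i
    have h3 : q0 i = 2 * Real.pi * X.b i / X.T i := by
      simp only [hq0, hl]
      ring
    rw [h3, div_lt_one h2]
    exact h1
  set q1 : X.ι → ℝ := fun i => (q0 i + 1) / 2 with hq1
  have hq01 : ∀ i, q0 i < q1 i := fun i => by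
    have := hq0lt i
    simp only [hq1]
    linarith
  have hq1lt : ∀ i, q1 i < 1 := fun i => by
    have := hq0lt i
    simp only [hq1]
    linarith
  choose k hk1 hk using fun i => num_out (q₁ := q1 i) ((hq0pos i).trans (hq01 i)) (hq1lt i)
  -- the deep part
  set K : Set (E n) := {x | ∃ i, ∃ x' ∈ Tube n (X.T i) (X.b i), X.Φ i x' = X.p x ∧
    q1 i < qz (l i) x'} with hK
  set M0 : Set (E n) := interior (Sg n \ K) with hM0
  have hM0o : IsOpen M0 := isOpen_interior
  have hM0s : M0 ⊆ Sg n := interior_subset.trans sdiff_subset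
  have hM0K : ∀ x ∈ M0, x ∉ K := fun x hx => (interior_subset hx).2
  have hcovT : ∀ i (x : E n), X.b i < ht x → ex (l i) x ∈ Tube n (X.T i) (X.b i) := by
    intro i x hx
    show nrm2 (X.T i) (ex (l i) x) < _
    have h1 : nrm2 (X.T i) (ex (l i) x) = nq (l i) (ex (l i) x) := rfl
    rw [h1, nq_ex, Real.exp_lt_exp, neg_lt_neg_iff]
    have h2 : 4 * Real.pi * X.b i / X.T i = l i * X.b i := by
      simp only [hl]
      ring
    rw [h2]
    exact mul_lt_mul_of_pos_left hx (hlpos i)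
  have hΦ : ∀ i (x : E n), X.b i < ht x → X.Φ i (ex (l i) x) = X.p (X.A i x) := by
    intro i x hx
    rw [← X.Φ_cov i x hx, Main_cov]
  -- points not in the cusp neighbourhoods are in `M0`
  have hbulk : ∀ x₀ ∈ Sg n, (∀ i, ∀ x' ∈ Tube n (X.T i) (X.b i), X.Φ i x' ≠ X.p x₀) →
      x₀ ∈ M0 := by
    intro x₀ hx₀ hno
    choose U hU hUs hUB using fun i => ht_lip hx₀ (c := q1 i / q0 i)
      (by rw [one_lt_div (hq0pos i)]; exact hq01 i)
    have h1 : (⋂ i, U i) ∩ Sg n ∈ 𝓝 x₀ :=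
      inter_mem ((iInter_mem).2 hU) (sg_open.mem_nhds hx₀)
    rw [hM0, mem_interior_iff_mem_nhds]
    refine mem_of_superset h1 ?_
    rintro x ⟨hxU, hx⟩
    refine ⟨hx, ?_⟩
    rintro ⟨i, x', hx', hpx, hq⟩
    have hxUi : x ∈ U i := mem_iInter.1 hxU i
    have hx'0 : x'.1 ≠ 0 := by
      intro h0
      have h2 : x' = (0, x'.2) := Prod.ext h0 rfl
      rw [h2] at hpx
      exact X.disj i x'.2 x hx hpx
    obtain ⟨z, hz, hzq⟩ := ex_surj (hlpos i) hx'0
    have hzb : X.b i < ht z := by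
      have h3 := hq01 i
      have h4 := hlpos i
      have h5 : l i * X.b i / 2 < l i * ht z / 2 := by
        rw [hzq]
        exact h3.trans hq
      have h6 : l i * X.b i < l i * ht z := by linarith
      exact lt_of_mul_lt_mul_left h6 h4.le
    have hzS : z ∈ Sg n := (X.b_pos i).trans hzb
    have hAz : X.A i z ∈ Sg n := (X.A_isom i).maps hzS
    have h7 : X.p x = X.p (X.A i z) := by
      rw [← hpx, ← hz, hΦ i z hzb]
    obtain ⟨γ, hγ⟩ := (X.p_rel x hx _ hAz).1 h7
    have hB : HolIsom fun y => X.A' i (X.g γ y) := Main_comp (X.g_isom γ) (X.A'_isom i)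
    have hBx : X.A' i (X.g γ x) = z := by
      rw [hγ]
      exact (X.A_inv i z hzS).2
    have h8 := hUB i _ hB x hxUi
    simp only [hBx] at h8
    have hgx₀ : X.g γ x₀ ∈ Sg n := (X.g_isom γ).maps hx₀
    by_cases hb : X.b i < ht (X.A' i (X.g γ x₀))
    · refine hno i _ (hcovT i _ hb) ?_
      rw [hΦ i _ hb, (X.A_inv i _ hgx₀).1]
      exact ((X.p_rel x₀ hx₀ _ hgx₀).2 ⟨γ, rfl⟩).symm
    · push Not at hb
      have h9 : ht z ≤ q1 i / q0 i * X.b i :=
        h8.trans (mul_le_mul_of_nonneg_left hb (div_nonneg ((hq0pos i).trans (hq01 i)).le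
          (hq0pos i).le))
      have h10 : l i * ht z / 2 ≤ q1 i := by
        calc l i * ht z / 2 ≤ l i * (q1 i / q0 i * X.b i) / 2 := by
              have := hlpos i
              gcongr
          _ = q1 i / q0 i * q0 i := by
              simp only [hq0]
              ring
          _ = q1 i := div_mul_cancel₀ _ (hq0pos i).ne'
      rw [hzq] at h10
      linarith
  have hqpos : ∀ i, ∀ x ∈ Tube n (X.T i) (X.b i), x.1 ≠ 0 → 0 < qz (l i) x := by
    intro i x hx h0
    have h1 : nq (l i) x < 1 := tube_lt X i hx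
    have h2 : 0 < nq (l i) x := by
      unfold nq
      have : 0 < ‖x.1‖ := norm_pos_iff.2 h0
      positivity
    have h3 := Real.log_neg h2 h1
    unfold qz
    linarith
  refine nef_of_models (J := Option X.ι)
    (fun j => j.elim M0 fun i => Tube n (X.T i) (X.b i))
    (fun j => j.elim X.p fun i => X.Φ i)
    (fun j => j.elim (fun x v => √(hyp x v)) fun i => Nz (l i) (k i)) ?_ ?_ ?_ ?_
  · -- cover
    intro y
    by_cases hy : ∃ i, ∃ x ∈ Tube n (X.T i) (X.b i), X.Φ i x = y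
    · obtain ⟨i, x, hx, hxy⟩ := hy
      exact ⟨some i, x, hx, hxy⟩
    · rcases X.cover y with ⟨x, hx, hxy⟩ | ⟨i, w, hw⟩
      · refine ⟨none, x, hbulk x hx ?_, hxy⟩
        intro i x' hx' h1
        exact hy ⟨i, x', hx', h1.trans hxy⟩
      · refine absurd ⟨i, (0, w), ?_, hw⟩ hy
        show nrm2 (X.T i) (0, w) < _
        have h1 : nrm2 (X.T i) ((0, w) : E n) = 0 := by
          unfold nrm2
          simp
        rw [h1]
        exact Real.exp_pos _
  · -- charts
    rintro (_ | i) x hx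
    · obtain ⟨φ, h1, h2, h3, h4⟩ := X.p_chart x (hM0s hx)
      exact Main_restr hM0o hx ⟨h1, h3, h4⟩ h2 hM0s
    · obtain ⟨φ, h1, h2, h3, h4⟩ := X.Φ_chart i x hx
      exact ⟨φ, ⟨h1, h3, h4⟩, h2⟩
  · -- local norms
    rintro (_ | i) x hx
    · exact ⟨M0, subset_rfl, hx, hyp_loc.congr hM0o hM0s fun _ _ _ => rfl⟩
    · exact Nz_loc (hlpos i) (hk1 i) (tube_open _ _) (fun x' hx' => tube_lt X i hx') hx
  · -- compatibility
    have hin : ∀ {φ : OpenPartialHomeomorph Y (E n)}, Inv M0 X.p φ → Inv (Sg n) X.p φ :=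
      fun h => ⟨h.1, h.2.1.trans hM0s, h.2.2⟩
    have hout : ∀ i {φ φ' : OpenPartialHomeomorph Y (E n)}, Inv M0 X.p φ →
        Inv (Tube n (X.T i) (X.b i)) (X.Φ i) φ' → ∀ y ∈ φ.source, y ∈ φ'.source → ∀ v,
        Nz (l i) (k i) (φ' y) v = √(hz (l i) (φ' y) v) := by
      intro i φ φ' h h' y hy hy' v
      have h0 := (tr_cusp X i (hin h) h' hy hy').1
      have hT : φ' y ∈ Tube n (X.T i) (X.b i) := h'.2.1 (φ'.map_source hy')
      have hM : φ y ∈ M0 := h.2.1 (φ.map_source hy)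
      refine Nz_out (hlpos i) (hq1lt i) (hk i) h0 (hqpos i _ hT h0) ?_ v
      by_contra hcon
      push Not at hcon
      refine hM0K _ hM ⟨i, φ' y, hT, ?_, hcon⟩
      rw [h'.2.2 _ (φ'.map_source hy'), h.2.2 _ (φ.map_source hy), φ.left_inv hy,
        φ'.left_inv hy']
    rintro (_ | i) (_ | j) φ φ' h h' y hy hy' v
    · show √(hyp _ _) = √(hyp _ _)
      rw [tr_hyp X (hin h) (hin h') hy hy']
    · show Nz (l j) (k j) _ _ = √(hyp _ _)
      rw [hout j h h' y hy hy', (tr_cusp X j (hin h) h' hy hy').2]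
    · show √(hyp _ _) = Nz (l i) (k i) _ _
      rw [hout i h' h y hy' hy, ← (tr_cusp X i (hin h') h hy' hy).2,
        tr_comp h.1 h'.1 h.1 hy hy' hy, tr_id hy]
    · have hT : φ y ∈ Tube n (X.T i) (X.b i) := h.2.1 (φ.map_source hy)
      have hT' : φ' y ∈ Tube n (X.T j) (X.b j) := h'.2.1 (φ'.map_source hy')
      have he : X.Φ i (φ y) = X.Φ j (φ' y) := by
        have e1 : X.Φ i (φ y) = φ.symm (φ y) := h.2.2 _ (φ.map_source hy)
        have e2 : X.Φ j (φ' y) = φ'.symm (φ' y) := h'.2.2 _ (φ'.map_source hy')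
        rw [e1, e2, φ.left_inv hy, φ'.left_inv hy']
      obtain ⟨rfl, -⟩ := X.emb i j _ hT _ hT' he
      exact comp_tube X i (hk1 i) h h' hy hy' v

end Pool.Agent.Nef6.CC
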