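import Pool.Agent.H.MP_6a1d6a_ag.CC.Def
import Pool.Agent.H.MP_6a1d6a_ag.S
import Pool.Agent.H.MP_6a1d6a_ag.W

/-!
MP_6a1d6a_ag/CC, module Nef: a compatible family of norms with plurisubharmonic logarithm makes the cotangent
bundle nef.

Follow the proof of `fam_sum_le` in `MP_6a1d6a_ag/G.lean` (same structure, simpler).
1. `peak_sub`: `b ∈ ball a R`, closedBall b r ⊆ ball a R, `W` continuous on the ball, `H` holomorphic on the ball,
   `‖H z‖ ≤ exp (W z)` on the ball, `‖H b‖ = exp (W b)`. Then `W b ≤ circleAverage W b r`: `W_jensen` for `H`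
   (module W), `Real.log ‖H z‖ ≤ W z` on the circle if `H z ≠ 0`; where `H z = 0` the junk value log 0 = 0 is a problem if
   `W z < 0`: multiply by a constant as in `log_sup_sub` (`W` is bounded below by `-m` on the circle: use `e^m H` and
   `W + m`).
2. For each point `c` of `C` choose a model `j c`, a chart `ch c` with `Inv (M j) (ψ j) (ch c)`, `ν c ∈ (ch c).source`
   (`hcov`, `hchart`), and put `u c = log (N (j c) (ch c (ν c)) (σ (ch c) c))`. Show `LogForm u o` (S.lean):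
   near `c`: `φ = ch c`, `U` from `hloc` at `φ (ν c)`; on a small ball about `chartAt ℂ c c` the point
   `x z = φ (ν (χ⁻¹ z))` is in `U` and holomorphic in `z`, `σ φ (χ⁻¹ z) = (z - z₀)^(o c) • g z` for `z ≠ z₀`
   (`meromorphicOrderAt_eq_int_iff`), `g` analytic, `g ≠ 0`; `w z = log (N (x z) (g z))` is continuous (`cont`, `pos`) and
   submean (`peak_sub` with `H z = θ (x z, g z)`, `PeakAt` at `(x b, g b)`). For `z ≠ z₀` the value `u (χ⁻¹ z)`, computed
   with the model and the chart of the point `χ⁻¹ z`, is the same by `hcomp` and the transformation rule of `σ`.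
3. `sum_le_zero` (S.lean).
-/

set_option autoImplicit false

open Set Filter Topology Metric
open scoped ContDiff Manifold

namespace Pool.Agent.Nef6.CC

/-- the sub-mean value inequality from a peak function -/
theorem Nef_peak_sub {W : ℂ → ℝ} {H : ℂ → ℂ} {a : ℂ} {R : ℝ} {b : ℂ} {r : ℝ} (hr : 0 < r)
    (hb : closedBall b r ⊆ ball a R) (hW : ContinuousOn W (ball a R))
    (hH : DifferentiableOn ℂ H (ball a R)) (hle : ∀ z ∈ ball a R, ‖H z‖ ≤ Real.exp (W z))
    (heq : ‖H b‖ = Real.exp (W b)) : W b ≤ Real.circleAverage W b r := by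
  have hsph : sphere b r ⊆ ball a R := sphere_subset_closedBall.trans hb
  obtain ⟨z0, -, hmin⟩ := (isCompact_sphere b r).exists_isMinOn
    (NormedSpace.sphere_nonempty.2 hr.le) (hW.mono hsph)
  set m : ℝ := W z0 with hmdef
  have hm : ∀ z ∈ sphere b r, m ≤ W z := fun z hz => hmin hz
  set K : ℝ := Real.exp (-m) with hK
  have hK0 : 0 < K := Real.exp_pos _
  have han : AnalyticOnNhd ℂ (fun z => (K : ℂ) * H z) (closedBall b |r|) := by
    rw [abs_of_pos hr]
    exact analyticOnNhd_const.mul ((hH.analyticOnNhd isOpen_ball).mono hb)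
  have hHb : H b ≠ 0 := by
    rw [← norm_pos_iff, heq]
    exact Real.exp_pos _
  have hne : (K : ℂ) * H b ≠ 0 := mul_ne_zero (by exact_mod_cast hK0.ne') hHb
  have hnorm : ∀ z, ‖(K : ℂ) * H z‖ = K * ‖H z‖ := by
    intro z
    rw [norm_mul, Complex.norm_real, Real.norm_of_nonneg hK0.le]
  have hcont : ContinuousOn W (sphere b |r|) := by
    rw [abs_of_pos hr]
    exact hW.mono hsph
  have hint : CircleIntegrable W b r := hcont.circleIntegrable'
  have h1 := W_jensen hr han hne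
  have h2 : Real.circleAverage (fun z => Real.log ‖(K : ℂ) * H z‖) b r ≤
      Real.circleAverage (fun z => -m + W z) b r := by
    refine Real.circleAverage_mono ?_ ?_ ?_
    · exact (han.mono sphere_subset_closedBall).meromorphicOn.circleIntegrable_log_norm
    · exact (continuousOn_const.add hcont).circleIntegrable'
    · intro z hz
      rw [abs_of_pos hr] at hz
      have h3 := hm z hz
      show Real.log ‖(K : ℂ) * H z‖ ≤ -m + W z
      rw [hnorm]
      by_cases h0 : H z = 0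
      · rw [h0, norm_zero, mul_zero, Real.log_zero]
        linarith
      · have hp : 0 < ‖H z‖ := norm_pos_iff.2 h0
        rw [Real.log_mul hK0.ne' hp.ne', hK, Real.log_exp]
        have h4 := Real.log_le_log hp (hle z (hsph hz))
        rw [Real.log_exp] at h4
        linarith
  rw [Real.circleAverage_fun_add (circleIntegrable_const _ _ _) hint,
    Real.circleAverage_const] at h2
  rw [hnorm, Real.log_mul hK0.ne' (norm_pos_iff.2 hHb).ne', hK, Real.log_exp, heq,
    Real.log_exp] at h1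
  linarith

theorem nef_of_models {V : Type} [NormedAddCommGroup V] [NormedSpace ℂ V] [CompleteSpace V]
    {Y : Type} [TopologicalSpace Y] [ChartedSpace V Y] [IsManifold 𝓘(ℂ, V) ω Y]
    {J : Type} (M : J → Set V) (ψ : J → V → Y) (N : J → V → V → ℝ)
    (hcov : ∀ y, ∃ j, ∃ x ∈ M j, ψ j x = y)
    (hchart : ∀ j, ∀ x ∈ M j, ∃ φ, Inv (M j) (ψ j) φ ∧ x ∈ φ.target)
    (hloc : ∀ j, ∀ x ∈ M j, ∃ U ⊆ M j, x ∈ U ∧ LocNorm (N j) U)
    (hcomp : ∀ j k φ φ', Inv (M j) (ψ j) φ → Inv (M k) (ψ k) φ' → ∀ y ∈ φ.source, y ∈ φ'.source →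
      ∀ v, N k (φ' y) (fderiv ℂ (φ' ∘ φ.symm) (φ y) v) = N j (φ y) v) :
    CotangentNef V Y := by
  intro C _ _ _ _ _ _ ν hν σ o hσ
  have hex : ∀ y : Y, ∃ j : J, ∃ φ : OpenPartialHomeomorph Y V,
      Inv (M j) (ψ j) φ ∧ y ∈ φ.source := by
    intro y
    obtain ⟨j, x, hx, hxy⟩ := hcov y
    obtain ⟨φ, hφ, hxφ⟩ := hchart j x hx
    refine ⟨j, φ, hφ, ?_⟩
    rw [← hxy, hφ.2.2 x hxφ]
    exact φ.map_target hxφ
  choose jj ch hch hsrc using fun c => hex (ν c)
  have key : LogForm (fun c => Real.log (N (jj c) (ch c (ν c)) (σ (ch c) c))) o := by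
    intro c
    have hφ := hch c
    have hνφ := hsrc c
    set φ := ch c with hφdef
    have hχ : chartAt ℂ c ∈ Charts ℂ C := IsManifold.chart_mem_maximalAtlas (I := 𝓘(ℂ)) (n := ω) c
    obtain ⟨hmero, hord⟩ := hσ.2 φ hφ.1 (chartAt ℂ c) hχ c hνφ (mem_chart_source ℂ c)
    obtain ⟨g, hg, hg0, hgeq⟩ := (meromorphicOrderAt_eq_int_iff hmero).1 hord
    have hx0 : φ (ν c) ∈ φ.target := φ.map_source hνφ
    obtain ⟨U, hUM, hx0U, hU⟩ := hloc (jj c) _ (hφ.2.1 hx0)
    have hct : chartAt ℂ c c ∈ (chartAt ℂ c).target := mem_chart_target ℂ c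
    have hsymm : ContinuousAt (chartAt ℂ c).symm (chartAt ℂ c c) :=
      (chartAt ℂ c).symm.continuousAt hct
    have hsc : (chartAt ℂ c).symm (chartAt ℂ c c) = c :=
      (chartAt ℂ c).left_inv (mem_chart_source ℂ c)
    have hT : ∀ᶠ z in 𝓝 (chartAt ℂ c c), z ∈ (chartAt ℂ c).target :=
      (chartAt ℂ c).open_target.mem_nhds hct
    have hνs : ContinuousAt (fun z => ν ((chartAt ℂ c).symm z)) (chartAt ℂ c c) := by
      refine ContinuousAt.comp' ?_ hsymm
      exact hν.continuous.continuousAt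
    have hS : ∀ᶠ z in 𝓝 (chartAt ℂ c c), ν ((chartAt ℂ c).symm z) ∈ φ.source := by
      refine hνs.eventually_mem ?_
      rw [hsc]
      exact φ.open_source.mem_nhds hνφ
    have hUz : ∀ᶠ z in 𝓝 (chartAt ℂ c c), φ (ν ((chartAt ℂ c).symm z)) ∈ U := by
      have h1 : ContinuousAt (fun z => φ (ν ((chartAt ℂ c).symm z))) (chartAt ℂ c c) := by
        refine ContinuousAt.comp' (g := φ) ?_ hνs
        rw [hsc]
        exact φ.continuousAt hνφ
      refine h1.eventually_mem ?_
      rw [hsc]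
      exact hU.op.mem_nhds hx0U
    have hga : ∀ᶠ z in 𝓝 (chartAt ℂ c c), AnalyticAt ℂ g z := hg.eventually_analyticAt
    have hgn : ∀ᶠ z in 𝓝 (chartAt ℂ c c), g z ≠ 0 := hg.continuousAt.eventually_ne hg0
    obtain ⟨R, hR, hball⟩ := Metric.eventually_nhds_iff_ball.1
      ((hT.and (hS.and (hUz.and (hga.and hgn)))).and (eventually_nhdsWithin_iff.1 hgeq))
    have hsub : ball (chartAt ℂ c c) R ⊆ (chartAt ℂ c).target := fun z hz => (hball z hz).1.1
    have hxm : ContMDiffOn 𝓘(ℂ) 𝓘(ℂ, V) ω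
        (fun z => φ (ν ((chartAt ℂ c).symm z))) (ball (chartAt ℂ c c) R) := by
      have h1 : ContMDiffOn 𝓘(ℂ) 𝓘(ℂ) ω (chartAt ℂ c).symm (ball (chartAt ℂ c c) R) :=
        (contMDiffOn_symm_of_mem_maximalAtlas hχ).mono hsub
      have h2 : ContMDiffOn 𝓘(ℂ) 𝓘(ℂ, V) ω
          (fun z => ν ((chartAt ℂ c).symm z)) (ball (chartAt ℂ c c) R) := hν.comp_contMDiffOn h1
      have h3 : ContMDiffOn 𝓘(ℂ, V) 𝓘(ℂ, V) ω φ φ.source := contMDiffOn_of_mem_maximalAtlas hφ.1
      exact h3.comp h2 fun z hz => (hball z hz).1.2.1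
    have hxd : DifferentiableOn ℂ (fun z => φ (ν ((chartAt ℂ c).symm z)))
        (ball (chartAt ℂ c c) R) :=
      (contMDiffOn_iff_contDiffOn.1 hxm).differentiableOn (by simp)
    have hgd : DifferentiableOn ℂ g (ball (chartAt ℂ c c) R) := fun z hz =>
      (hball z hz).1.2.2.2.1.differentiableAt.differentiableWithinAt
    have hpair : DifferentiableOn ℂ (fun z => (φ (ν ((chartAt ℂ c).symm z)), g z))
        (ball (chartAt ℂ c c) R) := hxd.prodMk hgd
    have hmaps : MapsTo (fun z => (φ (ν ((chartAt ℂ c).symm z)), g z))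
        (ball (chartAt ℂ c c) R) (U ×ˢ univ) := fun z hz =>
      ⟨(hball z hz).1.2.2.1, mem_univ _⟩
    have hpos : ∀ z ∈ ball (chartAt ℂ c c) R,
        0 < N (jj c) (φ (ν ((chartAt ℂ c).symm z))) (g z) := fun z hz =>
      hU.pos _ (hball z hz).1.2.2.1 _ (hball z hz).1.2.2.2.2
    have hcont : ContinuousOn (fun z => Real.log (N (jj c) (φ (ν ((chartAt ℂ c).symm z))) (g z)))
        (ball (chartAt ℂ c c) R) :=
      (hU.cont.comp hpair.continuousOn hmaps).log fun z hz => (hpos z hz).ne'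
    refine ⟨R, hR, hsub, fun z => Real.log (N (jj c) (φ (ν ((chartAt ℂ c).symm z))) (g z)),
      hcont, ?_, ?_⟩
    · intro a r hr har
      have haR : a ∈ ball (chartAt ℂ c c) R := har (mem_closedBall_self hr.le)
      obtain ⟨θ, hθ, hθle, hθeq⟩ := hU.peak _ (hball a haR).1.2.2.1 _ (hball a haR).1.2.2.2.2
      refine Nef_peak_sub (H := fun z => θ (φ (ν ((chartAt ℂ c).symm z)), g z)) hr har hcont
        (hθ.comp hpair hmaps) ?_ ?_
      · intro z hz
        show ‖θ (φ (ν ((chartAt ℂ c).symm z)), g z)‖ ≤ _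
        rw [Real.exp_log (hpos z hz)]
        exact hθle _ (hball z hz).1.2.2.1 _
      · show ‖θ (φ (ν ((chartAt ℂ c).symm a)), g a)‖ = _
        rw [Real.exp_log (hpos a haR)]
        exact hθeq
    · intro z hz hzc
      have h6 : σ φ ((chartAt ℂ c).symm z) = (z - chartAt ℂ c c) ^ (o c) • g z :=
        (hball z hz).2 hzc
      have hzS := (hball z hz).1.2.1
      have h7 := hσ.1 φ hφ.1 (ch ((chartAt ℂ c).symm z)) (hch _).1 ((chartAt ℂ c).symm z) hzS
        (hsrc _)
      have h8 := hcomp (jj c) (jj ((chartAt ℂ c).symm z)) φ (ch ((chartAt ℂ c).symm z)) hφ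
        (hch _) (ν ((chartAt ℂ c).symm z)) hzS (hsrc _) (σ φ ((chartAt ℂ c).symm z))
      have hz0 : ‖z - chartAt ℂ c c‖ ≠ 0 := norm_ne_zero_iff.2 (sub_ne_zero.2 hzc)
      show Real.log (N (jj ((chartAt ℂ c).symm z))
        (ch ((chartAt ℂ c).symm z) (ν ((chartAt ℂ c).symm z)))
        (σ (ch ((chartAt ℂ c).symm z)) ((chartAt ℂ c).symm z))) = _
      rw [h7, h8, h6, hU.hom _ (hball z hz).1.2.2.1, norm_zpow,
        Real.log_mul (zpow_ne_zero _ hz0) (hpos z hz).ne', Real.log_zpow]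
  exact (sum_le_zero key).2

end Pool.Agent.Nef6.CC
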