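import Pool.Agent.H.MP_6a1d6a_ag.CC.Def

/-!
MP_6a1d6a_ag/CC, module Peak: constructions with `PeakAt` and `LocNorm`.

* `peak3`: `θ q = (conj p * P q + ⟪b, Q q⟫ + ⟪c, R q⟫) / N x₀ v₀` with `p, b, c` the values at `(x₀, v₀)`; Cauchy-Schwarz for three
  terms.
* `PeakAt.pull`: `θ' (x, v) = θ (L x, L' (x, v))`.
* `LocNorm.max`: at `(x, v)` take the `θ` of the larger of the two norms.
* `LocNorm.congr`: restrict to a smaller open set and change the norm off it.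
-/

set_option autoImplicit false

open Set Filter Topology Metric
open scoped ContDiff Manifold

namespace Pool.Agent.Nef6.CC

variable {V : Type} [NormedAddCommGroup V] [NormedSpace ℂ V]

private theorem Peak_cs (a b c x y z : ℝ) :
    a * x + b * y + c * z ≤ √(a ^ 2 + b ^ 2 + c ^ 2) * √(x ^ 2 + y ^ 2 + z ^ 2) := by
  rw [← Real.sqrt_mul (by positivity)]
  apply Real.le_sqrt_of_sq_le
  nlinarith [sq_nonneg (a * y - b * x), sq_nonneg (a * z - c * x), sq_nonneg (b * z - c * y)]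

theorem peak3 {F G : Type} [NormedAddCommGroup F] [InnerProductSpace ℂ F] [NormedAddCommGroup G]
    [InnerProductSpace ℂ G] {N : V → V → ℝ} {U : Set V} {x₀ v₀ : V} (P : V × V → ℂ) (Q : V × V → F)
    (R : V × V → G) (hP : DifferentiableOn ℂ P (U ×ˢ univ)) (hQ : DifferentiableOn ℂ Q (U ×ˢ univ))
    (hR : DifferentiableOn ℂ R (U ×ˢ univ)) (h0 : 0 < N x₀ v₀) (hN : ∀ x ∈ U, ∀ v, 0 ≤ N x v)
    (hle : ∀ x ∈ U, ∀ v, ‖P (x, v)‖ ^ 2 + ‖Q (x, v)‖ ^ 2 + ‖R (x, v)‖ ^ 2 ≤ N x v ^ 2)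
    (heq : ‖P (x₀, v₀)‖ ^ 2 + ‖Q (x₀, v₀)‖ ^ 2 + ‖R (x₀, v₀)‖ ^ 2 = N x₀ v₀ ^ 2) :
    PeakAt N U x₀ v₀ := by
  refine ⟨fun q => ((starRingEnd ℂ) (P (x₀, v₀)) * P q + inner ℂ (Q (x₀, v₀)) (Q q) +
    inner ℂ (R (x₀, v₀)) (R q)) / (N x₀ v₀ : ℂ), ?_, ?_, ?_⟩
  · have d1 : DifferentiableOn ℂ (fun q => (starRingEnd ℂ) (P (x₀, v₀)) * P q) (U ×ˢ univ) :=
      hP.const_mul _
    have d2 : DifferentiableOn ℂ (fun q => inner ℂ (Q (x₀, v₀)) (Q q)) (U ×ˢ univ) :=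
      (innerSL ℂ (Q (x₀, v₀))).differentiable.comp_differentiableOn hQ
    have d3 : DifferentiableOn ℂ (fun q => inner ℂ (R (x₀, v₀)) (R q)) (U ×ˢ univ) :=
      (innerSL ℂ (R (x₀, v₀))).differentiable.comp_differentiableOn hR
    simp only [div_eq_mul_inv]
    exact ((d1.fun_add d2).fun_add d3).mul_const _
  · intro x hx v
    have h1 : ‖(starRingEnd ℂ) (P (x₀, v₀)) * P (x, v) + inner ℂ (Q (x₀, v₀)) (Q (x, v)) +
        inner ℂ (R (x₀, v₀)) (R (x, v))‖ ≤ ‖P (x₀, v₀)‖ * ‖P (x, v)‖ +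
        ‖Q (x₀, v₀)‖ * ‖Q (x, v)‖ + ‖R (x₀, v₀)‖ * ‖R (x, v)‖ := by
      refine (norm_add_le _ _).trans (add_le_add ((norm_add_le _ _).trans (add_le_add ?_ ?_)) ?_)
      · rw [norm_mul, RCLike.norm_conj]
      · exact norm_inner_le_norm _ _
      · exact norm_inner_le_norm _ _
    have h2 := Peak_cs ‖P (x₀, v₀)‖ ‖Q (x₀, v₀)‖ ‖R (x₀, v₀)‖ ‖P (x, v)‖ ‖Q (x, v)‖ ‖R (x, v)‖
    rw [heq, Real.sqrt_sq h0.le] at h2
    have h3 : √(‖P (x, v)‖ ^ 2 + ‖Q (x, v)‖ ^ 2 + ‖R (x, v)‖ ^ 2) ≤ N x v := by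
      rw [← Real.sqrt_sq (hN x hx v)]
      exact Real.sqrt_le_sqrt (hle x hx v)
    show ‖_ / _‖ ≤ _
    rw [norm_div, Complex.norm_real, Real.norm_of_nonneg h0.le, div_le_iff₀ h0]
    calc _ ≤ _ := h1
      _ ≤ _ := h2
      _ ≤ N x₀ v₀ * N x v := mul_le_mul_of_nonneg_left h3 h0.le
      _ = N x v * N x₀ v₀ := mul_comm _ _
  · show ‖_ / _‖ = _
    have h1 : (starRingEnd ℂ) (P (x₀, v₀)) * P (x₀, v₀) + inner ℂ (Q (x₀, v₀)) (Q (x₀, v₀)) +
        inner ℂ (R (x₀, v₀)) (R (x₀, v₀)) = ((N x₀ v₀ ^ 2 : ℝ) : ℂ) := by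
      rw [inner_self_eq_norm_sq_to_K, inner_self_eq_norm_sq_to_K, Complex.conj_mul', ← heq]
      push_cast
      rfl
    rw [h1, norm_div, Complex.norm_real, Complex.norm_real, Real.norm_of_nonneg h0.le,
      Real.norm_of_nonneg (sq_nonneg _), pow_two, mul_div_assoc, div_self h0.ne', mul_one]

theorem PeakAt.pull {N N' : V → V → ℝ} {U U' : Set V} {L : V → V} {L' : V × V → V} {x₀ v₀ : V}
    (h : PeakAt N U (L x₀) (L' (x₀, v₀))) (hL : DifferentiableOn ℂ L U')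
    (hL' : DifferentiableOn ℂ L' (U' ×ˢ univ)) (hm : MapsTo L U' U) (hx₀ : x₀ ∈ U')
    (hN : ∀ x ∈ U', ∀ v, N' x v = N (L x) (L' (x, v))) : PeakAt N' U' x₀ v₀ := by
  obtain ⟨θ, h1, h2, h3⟩ := h
  refine ⟨fun q => θ (L q.1, L' q), ?_, ?_, ?_⟩
  · refine h1.comp (DifferentiableOn.prodMk ?_ hL') ?_
    · exact hL.comp differentiableOn_fst fun q hq => hq.1
    · intro q hq
      exact ⟨hm hq.1, mem_univ _⟩
  · intro x hx v
    rw [hN x hx v]
    exact h2 _ (hm hx) _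
  · rw [hN x₀ hx₀ v₀]
    exact h3

theorem LocNorm.pull {N N' : V → V → ℝ} {U U' : Set V} {L : V → V} {L' : V × V → V}
    (h : LocNorm N U) (hU' : IsOpen U') (hL : DifferentiableOn ℂ L U')
    (hL' : DifferentiableOn ℂ L' (U' ×ˢ univ)) (hm : MapsTo L U' U)
    (hN : ∀ x ∈ U', ∀ v, N' x v = N (L x) (L' (x, v)))
    (hhom : ∀ x ∈ U', ∀ (c : ℂ) (v : V), L' (x, c • v) = c • L' (x, v))
    (hinj : ∀ x ∈ U', ∀ v, v ≠ 0 → L' (x, v) ≠ 0) : LocNorm N' U' where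
  op := hU'
  cont := by
    have h1 : ContinuousOn (fun q : V × V => (L q.1, L' q)) (U' ×ˢ univ) :=
      (hL.continuousOn.comp continuousOn_fst fun q hq => hq.1).prodMk hL'.continuousOn
    have h2 : MapsTo (fun q : V × V => (L q.1, L' q)) (U' ×ˢ univ) (U ×ˢ univ) :=
      fun q hq => ⟨hm hq.1, mem_univ _⟩
    refine (h.cont.comp h1 h2).congr fun q hq => ?_
    exact hN q.1 hq.1 q.2
  pos x hx v hv := by
    rw [hN x hx v]
    exact h.pos _ (hm hx) _ (hinj x hx v hv)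
  hom x hx c v := by
    rw [hN x hx v, hN x hx (c • v), hhom x hx c v]
    exact h.hom _ (hm hx) _ _
  peak x hx v hv :=
    PeakAt.pull (h.peak _ (hm hx) _ (hinj x hx v hv)) hL hL' hm hx hN

theorem LocNorm.max {N N' : V → V → ℝ} {U : Set V} (h : LocNorm N U) (h' : LocNorm N' U) :
    LocNorm (fun x v => max (N x v) (N' x v)) U where
  op := h.op
  cont := h.cont.sup h'.cont
  pos x hx v hv := lt_max_of_lt_left (h.pos x hx v hv)
  hom x hx c v := by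
    rw [h.hom x hx c v, h'.hom x hx c v]
    exact (mul_max_of_nonneg _ _ (norm_nonneg c)).symm
  peak x hx v hv := by
    rcases le_total (N' x v) (N x v) with h1 | h1
    · obtain ⟨θ, h2, h3, h4⟩ := h.peak x hx v hv
      exact ⟨θ, h2, fun y hy w => (h3 y hy w).trans (le_max_left _ _),
        h4.trans (max_eq_left h1).symm⟩
    · obtain ⟨θ, h2, h3, h4⟩ := h'.peak x hx v hv
      exact ⟨θ, h2, fun y hy w => (h3 y hy w).trans (le_max_right _ _),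
        h4.trans (max_eq_right h1).symm⟩

theorem LocNorm.congr {N N' : V → V → ℝ} {U U' : Set V} (h : LocNorm N U) (hU' : IsOpen U')
    (hsub : U' ⊆ U) (hN : ∀ x ∈ U', ∀ v, N' x v = N x v) : LocNorm N' U' where
  op := hU'
  cont := (h.cont.mono (prod_mono hsub Subset.rfl)).congr fun q hq => hN q.1 hq.1 q.2
  pos x hx v hv := by
    rw [hN x hx v]
    exact h.pos x (hsub hx) v hv
  hom x hx c v := by
    rw [hN x hx v, hN x hx (c • v)]
    exact h.hom x (hsub hx) c v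
  peak x hx v hv := by
    obtain ⟨θ, h2, h3, h4⟩ := h.peak x (hsub hx) v hv
    refine ⟨θ, h2.mono (prod_mono hsub Subset.rfl), fun y hy w => ?_, ?_⟩
    · rw [hN y hy w]
      exact h3 y (hsub hy) w
    · rw [hN x hx v]
      exact h4

end Pool.Agent.Nef6.CC
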